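import Pool.Agent.W_MP_8dd142_lc.Defs

/-!
# The general add lemma (MP_8dd142_lc)
-/

set_option autoImplicit false

namespace Pool.MP_8dd142_lc.W

open Node

namespace Sys

section

variable (S : Sys) (N' : Set Node) (π : Node → Node) (A : Set Node) (X : Set ℕ)

open Classical in
/-- `X` on `A`, the complement of `X` off `A`. -/
noncomputable def side (ν : Node) : Set ℕ := if ν ∈ A then X else Xᶜ

/-- The new ultrafilters: generated by the old ones and `X` or its complement. -/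
noncomputable def newφ (Y : Set ℕ) : Set Node :=
  {ν | ν ∈ N' ∧ ∃ b ∈ S.B, π ν ∈ S.φ b ∧ b ∩ side A X ν ⊆ Y}

/-- The algebra generated by `B` and `X`. -/
def newB : Set (Set ℕ) := {Y | ∃ b ∈ S.B, ∃ c ∈ S.B, Y = (b ∩ X) ∪ (c ∩ Xᶜ)}

end

/-- **General add lemma.** -/
theorem add (S : Sys) (N' : Set Node) (hN : S.N ⊆ N') (π : Node → Node)
    (hπ : ∀ ν ∈ N', π ν ∈ S.N) (hπid : ∀ ν ∈ S.N, π ν = ν) (A : Set Node) (X : Set ℕ)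
    (hab₁ : ∀ b ∈ S.B, ∀ ν ∈ N', ν ∈ A → π ν ∈ S.φ b → (b ∩ X).Infinite)
    (hab₂ : ∀ b ∈ S.B, ∀ ν ∈ N', ν ∉ A → π ν ∈ S.φ b → (b ∩ Xᶜ).Infinite)
    (hcd : ∀ b ∈ S.B, ∀ ν ∈ N', π ν ∈ S.φ b → ∀ l : Lev, l ≠ ⊥ → (∃ μ ∈ N', lev μ = l) →
      lev ν ≤ l → {μ | (μ ∈ N' ∧ π μ ∈ S.φ b ∧ (μ ∈ A ↔ ν ∈ A)) ∧ lev μ = l}.Infinite)
    (hfr : ∀ μ ∈ N', lev μ ∈ S.T → μ ∈ S.N) :
    ∃ S' : Sys, S.Ext S' ∧ S'.N = N' ∧ X ∈ S'.B ∧ S'.φ X = A ∩ N' ∧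
      (∀ b ∈ S.B, S'.φ b = {ν | ν ∈ N' ∧ π ν ∈ S.φ b}) ∧
      (S.B.Countable → S'.B.Countable) := by
  classical
  have hside₁ : ∀ ν ∈ A, side A X ν = X := fun ν h => if_pos h
  have hside₂ : ∀ ν, ν ∉ A → side A X ν = Xᶜ := fun ν h => if_neg h
  -- every set in the filter meets the side infinitely
  have hinf : ∀ b ∈ S.B, ∀ ν ∈ N', π ν ∈ S.φ b → (b ∩ side A X ν).Infinite := by
    intro b hb ν hν hbν
    by_cases h : ν ∈ A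
    · rw [hside₁ ν h]; exact hab₁ b hb ν hν h hbν
    · rw [hside₂ ν h]; exact hab₂ b hb ν hν h hbν
  -- on the old algebra nothing changes
  have hold : ∀ b ∈ S.B, ∀ ν ∈ N', ν ∈ newφ S N' π A X b ↔ π ν ∈ S.φ b := by
    intro b hb ν hν
    constructor
    · rintro ⟨_, c, hc, hcν, hsub⟩
      by_contra hnot
      have h1 : π ν ∈ S.φ bᶜ := (S.mem_φ_compl hb (hπ ν hν)).2 hnot
      have h2 : π ν ∈ S.φ (c ∩ bᶜ) := (S.mem_φ_inter hc (S.compl_mem b hb)).2 ⟨hcν, h1⟩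
      have h3 := hinf _ (S.inter_mem c hc _ (S.compl_mem b hb)) ν hν h2
      obtain ⟨n, hn⟩ := h3.nonempty
      exact hn.1.2 (hsub ⟨hn.1.1, hn.2⟩)
    · intro h
      exact ⟨hν, b, hb, h, Set.inter_subset_left⟩
  -- decision
  have hdec : ∀ Y ∈ newB S X, ∀ ν ∈ N', ν ∉ newφ S N' π A X Y → ν ∈ newφ S N' π A X Yᶜ := by
    rintro Y ⟨b, hb, c, hc, rfl⟩ ν hν hnot
    by_cases h : ν ∈ A
    · have hb' : π ν ∉ S.φ b := by
        intro hbν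
        apply hnot
        refine ⟨hν, b, hb, hbν, ?_⟩
        rw [hside₁ ν h]
        exact Set.subset_union_left
      refine ⟨hν, bᶜ, S.compl_mem b hb, (S.mem_φ_compl hb (hπ ν hν)).2 hb', ?_⟩
      rw [hside₁ ν h]
      rintro n ⟨hn1, hn2⟩ hn
      rcases hn with hn | hn
      · exact hn1 hn.1
      · exact hn.2 hn2
    · have hc' : π ν ∉ S.φ c := by
        intro hcν
        apply hnot
        refine ⟨hν, c, hc, hcν, ?_⟩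
        rw [hside₂ ν h]
        exact Set.subset_union_right
      refine ⟨hν, cᶜ, S.compl_mem c hc, (S.mem_φ_compl hc (hπ ν hν)).2 hc', ?_⟩
      rw [hside₂ ν h]
      rintro n ⟨hn1, hn2⟩ hn
      rcases hn with hn | hn
      · exact hn2 hn.2
      · exact hn1 hn.1
  have hcons : ∀ Y, ∀ ν, ν ∈ newφ S N' π A X Y → ν ∉ newφ S N' π A X Yᶜ := by
    rintro Y ν ⟨hν, b, hb, hbν, hbY⟩ ⟨_, c, hc, hcν, hcY⟩
    have h2 : π ν ∈ S.φ (b ∩ c) := (S.mem_φ_inter hb hc).2 ⟨hbν, hcν⟩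
    obtain ⟨n, hn⟩ := (hinf _ (S.inter_mem b hb c hc) ν hν h2).nonempty
    exact hcY ⟨hn.1.2, hn.2⟩ (hbY ⟨hn.1.1, hn.2⟩)
  have hX : X ∈ newB S X :=
    ⟨Set.univ, S.univ_mem, ∅, S.empty_mem, by simp⟩
  have hsubB : S.B ⊆ newB S X := by
    intro b hb
    refine ⟨b, hb, b, hb, ?_⟩
    rw [← Set.inter_union_distrib_left, Set.union_compl_self, Set.inter_univ]
  have hφX : newφ S N' π A X X = A ∩ N' := by
    ext ν
    constructor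
    · rintro ⟨hν, b, hb, hbν, hbX⟩
      refine ⟨?_, hν⟩
      by_contra h
      rw [hside₂ ν h] at hbX
      have h3 := hab₂ b hb ν hν h hbν
      obtain ⟨n, hn⟩ := h3.nonempty
      exact hn.2 (hbX hn)
    · rintro ⟨h, hν⟩
      refine ⟨hν, Set.univ, S.univ_mem, by rw [S.φ_univ]; exact hπ ν hν, ?_⟩
      rw [hside₁ ν h]
      exact Set.inter_subset_right
  refine ⟨{ B := newB S X, N := N', φ := newφ S N' π A X
            univ_mem := hsubB S.univ_mem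
            compl_mem := ?_
            inter_mem := ?_
            φ_univ := ?_
            φ_compl := ?_
            φ_inter := ?_
            root_mem := hN S.root_mem
            pt_mem := fun y => hN (S.pt_mem y)
            inf := ?_
            cl := ?_ }, ⟨hsubB, hN, ?_, hfr⟩, rfl, hX, hφX, ?_, ?_⟩
  · -- compl_mem
    rintro Y ⟨b, hb, c, hc, rfl⟩
    refine ⟨bᶜ, S.compl_mem b hb, cᶜ, S.compl_mem c hc, ?_⟩
    ext n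
    by_cases hn : n ∈ X <;> simp [hn]
  · -- inter_mem
    rintro Y ⟨b, hb, c, hc, rfl⟩ Y' ⟨b', hb', c', hc', rfl⟩
    refine ⟨b ∩ b', S.inter_mem b hb b' hb', c ∩ c', S.inter_mem c hc c' hc', ?_⟩
    ext n
    by_cases hn : n ∈ X <;> simp [hn]
  · -- φ_univ
    ext ν
    constructor
    · exact fun h => h.1
    · exact fun h => ⟨h, Set.univ, S.univ_mem, by rw [S.φ_univ]; exact hπ ν h, Set.subset_univ _⟩
  · -- φ_compl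
    intro Y hY
    ext ν
    constructor
    · intro h
      refine ⟨h.1, fun h' => hcons Y ν h' h⟩
    · rintro ⟨hν, hnot⟩
      exact hdec Y hY ν hν hnot
  · -- φ_inter
    intro Y _ Y' _
    ext ν
    constructor
    · rintro ⟨hν, b, hb, hbν, hbY⟩
      exact ⟨⟨hν, b, hb, hbν, hbY.trans Set.inter_subset_left⟩,
        ⟨hν, b, hb, hbν, hbY.trans Set.inter_subset_right⟩⟩
    · rintro ⟨⟨hν, b, hb, hbν, hbY⟩, ⟨_, c, hc, hcν, hcY⟩⟩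
      refine ⟨hν, b ∩ c, S.inter_mem b hb c hc, (S.mem_φ_inter hb hc).2 ⟨hbν, hcν⟩, ?_⟩
      rintro n ⟨⟨h1, h2⟩, h3⟩
      exact ⟨hbY ⟨h1, h3⟩, hcY ⟨h2, h3⟩⟩
  · -- inf
    rintro Y _ ν ⟨hν, b, hb, hbν, hbY⟩
    exact (hinf b hb ν hν hbν).mono hbY
  · -- cl
    rintro Y _ ν ⟨hν, b, hb, hbν, hbY⟩ l hl hl' hle
    refine (hcd b hb ν hν hbν l hl hl' hle).mono ?_
    rintro μ ⟨⟨hμ, hbμ, hA⟩, hlev⟩
    refine ⟨⟨hμ, b, hb, hbμ, ?_⟩, hlev⟩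
    have : side A X μ = side A X ν := by
      by_cases h : ν ∈ A
      · rw [hside₁ ν h, hside₁ μ (hA.2 h)]
      · rw [hside₂ ν h, hside₂ μ (fun h' => h (hA.1 h'))]
    rw [this]
    exact hbY
  · -- Ext.φ
    intro b hb ν hν
    have := hold b hb ν (hN hν)
    rw [hπid ν hν] at this
    exact this
  · -- φ on the old algebra
    intro b hb
    ext ν
    constructor
    · intro h
      exact ⟨h.1, (hold b hb ν h.1).1 h⟩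
    · rintro ⟨h1, h2⟩
      exact (hold b hb ν h1).2 h2
  · -- countable
    intro hc
    have : newB S X ⊆ (fun p : Set ℕ × Set ℕ => (p.1 ∩ X) ∪ (p.2 ∩ Xᶜ)) '' (S.B ×ˢ S.B) := by
      rintro Y ⟨b, hb, c, hc, rfl⟩
      exact ⟨(b, c), ⟨hb, hc⟩, rfl⟩
    exact ((hc.prod hc).image _).mono this

/-- Adding one set with the same nodes. -/
theorem add_same (S : Sys) (hS : S.Ctb) (A : Set Node) (hA : A ⊆ S.N) (X : Set ℕ)
    (ha : ∀ b ∈ S.B, ∀ y, pt y ∈ A → pt y ∈ S.φ b → (b ∩ X).Infinite)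
    (hb : ∀ b ∈ S.B, ∀ y, pt y ∉ A → pt y ∈ S.φ b → (b ∩ Xᶜ).Infinite)
    (hc : ∀ b ∈ S.B, ∀ ν ∈ S.φ b, ν ∈ A → ∀ l ∈ S.T, lev ν ≤ l →
      {μ | (μ ∈ S.φ b ∧ μ ∈ A) ∧ lev μ = l}.Infinite)
    (hd : ∀ b ∈ S.B, ∀ ν ∈ S.φ b, ν ∉ A → ∀ l ∈ S.T, lev ν ≤ l →
      {μ | (μ ∈ S.φ b ∧ μ ∉ A) ∧ lev μ = l}.Infinite) :
    ∃ S' : Sys, S.Ext S' ∧ S'.Ctb ∧ S'.N = S.N ∧ X ∈ S'.B ∧ S'.φ X = A := by
  have e1 : ∀ b ∈ S.B, ∀ ν ∈ S.N, ν ∈ A → id ν ∈ S.φ b → (b ∩ X).Infinite := by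
    intro b hb' ν _ hνA hbν
    obtain ⟨μ, ⟨⟨hμ1, hμ2⟩, hμ3⟩⟩ := (hc b hb' ν hbν hνA ⊤ S.top_mem_T (lev_le_top ν)).nonempty
    obtain ⟨y, rfl⟩ := lev_eq_top hμ3
    exact ha b hb' y hμ2 hμ1
  have e2 : ∀ b ∈ S.B, ∀ ν ∈ S.N, ν ∉ A → id ν ∈ S.φ b → (b ∩ Xᶜ).Infinite := by
    intro b hb' ν _ hνA hbν
    obtain ⟨μ, ⟨⟨hμ1, hμ2⟩, hμ3⟩⟩ := (hd b hb' ν hbν hνA ⊤ S.top_mem_T (lev_le_top ν)).nonempty
    obtain ⟨y, rfl⟩ := lev_eq_top hμ3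
    exact hb b hb' y hμ2 hμ1
  have e3 : ∀ b ∈ S.B, ∀ ν ∈ S.N, id ν ∈ S.φ b → ∀ l : Lev, l ≠ ⊥ → (∃ μ ∈ S.N, lev μ = l) →
      lev ν ≤ l → {μ | (μ ∈ S.N ∧ id μ ∈ S.φ b ∧ (μ ∈ A ↔ ν ∈ A)) ∧ lev μ = l}.Infinite := by
    intro b hb' ν _ hbν l hl1 hl2 hle
    by_cases hνA : ν ∈ A
    · refine (hc b hb' ν hbν hνA l ⟨hl1, hl2⟩ hle).mono ?_
      rintro μ ⟨⟨h1, h2⟩, h3⟩
      exact ⟨⟨S.φ_sub hb' h1, h1, iff_of_true h2 hνA⟩, h3⟩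
    · refine (hd b hb' ν hbν hνA l ⟨hl1, hl2⟩ hle).mono ?_
      rintro μ ⟨⟨h1, h2⟩, h3⟩
      exact ⟨⟨S.φ_sub hb' h1, h1, iff_of_false h2 hνA⟩, h3⟩
  obtain ⟨S', h1, h2, h3, h4, h5, h6⟩ := S.add S.N subset_rfl id (fun ν h => h) (fun _ _ => rfl)
    A X e1 e2 e3 (fun μ h _ => h)
  exact ⟨S', h1, ⟨h6 hS.1, by rw [h2]; exact hS.2⟩, h2, h3, by
    rw [h4]; exact Set.inter_eq_left.2 hA⟩

end Sys

end Pool.MP_8dd142_lc.W
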