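import Mathlib

/-!
# The first uncountable ordinal, and diamond (MP_8dd142_lc)
-/

set_option autoImplicit false

namespace Pool.MP_8dd142_lc.W

open Ordinal Cardinal Set

/-- `ω₁` in the lowest universe. -/
noncomputable abbrev om : Ordinal.{0} := Ordinal.omega 1

theorem om_isSuccLimit : Order.IsSuccLimit om := Cardinal.isSuccLimit_omega 1

theorem om_succ {α : Ordinal.{0}} (h : α < om) : α + 1 < om := by
  have := om_isSuccLimit.succ_lt h
  rwa [Order.succ_eq_add_one] at this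

theorem om_pos : (0 : Ordinal.{0}) < om := Ordinal.omega_pos 1

theorem countable_Iio {α : Ordinal.{0}} (h : α < om) : (Iio α).Countable := by
  rw [← Cardinal.le_aleph0_iff_set_countable, Cardinal.mk_Iio_ordinal]
  have h1 : α.card < (om).card := (Ordinal.isInitial_omega 1).card_lt_card.2 h
  rw [show (om).card = ℵ₁ from Ordinal.card_omega 1, Cardinal.lt_aleph_one_iff] at h1
  rw [Cardinal.lift_le_aleph0]
  exact h1

theorem not_countable_Iio_om : ¬ (Iio om).Countable := by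
  rw [← Cardinal.le_aleph0_iff_set_countable, Cardinal.mk_Iio_ordinal]
  rw [show (om).card = ℵ₁ from Ordinal.card_omega 1]
  simp

/-- Countable subsets of `ω₁` are bounded. -/
theorem bdd_of_countable {C : Set Ordinal.{0}} (hC : C.Countable) (h : ∀ α ∈ C, α < om) :
    ∃ β < om, ∀ α ∈ C, α ≤ β := by
  have : Countable C := hC.to_subtype
  refine ⟨⨆ α : C, α.1, Ordinal.iSup_lt_omega_one fun i => h i.1 i.2, ?_⟩
  intro α hα
  exact Ordinal.le_iSup (fun α : C => α.1) ⟨α, hα⟩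

/-- `C` is closed and unbounded in `ω₁`. -/
def IsClub (C : Set Ordinal.{0}) : Prop :=
  (∀ α ∈ C, α < om) ∧ (∀ α < om, ∃ β ∈ C, α < β) ∧
    ∀ δ < om, δ ≠ 0 → (∀ α < δ, ∃ β ∈ C, α < β ∧ β < δ) → δ ∈ C

/-- Jensen's diamond principle. -/
def Diamond : Prop :=
  ∃ S : Ordinal.{0} → Set Ordinal.{0}, ∀ A : Set Ordinal.{0}, (∀ α ∈ A, α < om) →
    ∀ C : Set Ordinal.{0}, IsClub C → ∃ δ ∈ C, A ∩ Iio δ = S δ

/-- A limit criterion. -/
theorem isSuccLimit_of {δ : Ordinal.{0}} (h0 : δ ≠ 0) (h : ∀ β < δ, β + 1 < δ) :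
    Order.IsSuccLimit δ := by
  rw [Ordinal.isSuccLimit_iff]
  refine ⟨h0, Order.isSuccPrelimit_of_succ_lt fun β hβ => ?_⟩
  rw [Order.succ_eq_add_one]
  exact h β hβ

/-- The closure points of a function form a club. -/
theorem isClub_closure (h : Ordinal.{0} → Ordinal.{0}) (hh : ∀ α < om, h α < om) :
    IsClub {δ | δ < om ∧ Order.IsSuccLimit δ ∧ ∀ α < δ, h α < δ} := by
  have hg : ∀ α : Ordinal.{0}, ∃ β, α < om → (β < om ∧ α < β ∧ ∀ γ ≤ α, h γ < β) := by
    intro α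
    by_cases hα : α < om
    · have hc : (insert α (h '' Iio (α + 1))).Countable :=
        ((countable_Iio (om_succ hα)).image h).insert α
      obtain ⟨β, hβ, hb⟩ := bdd_of_countable hc (by
        rintro γ (rfl | ⟨x, hx, rfl⟩)
        · exact hα
        · exact hh x (lt_trans hx (om_succ hα)))
      refine ⟨β + 1, fun _ => ⟨om_succ hβ, ?_, ?_⟩⟩
      · exact lt_of_le_of_lt (hb α (mem_insert _ _)) (lt_add_one β)
      · intro γ hγ
        refine lt_of_le_of_lt (hb (h γ) (mem_insert_of_mem _ ⟨γ, ?_, rfl⟩)) (lt_add_one β)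
        exact lt_of_le_of_lt hγ (lt_add_one α)
    · exact ⟨0, fun h => absurd h hα⟩
  choose g hg using hg
  refine ⟨fun α hα => hα.1, ?_, ?_⟩
  · intro α₀ hα₀
    let s : ℕ → Ordinal.{0} := fun n => Nat.rec α₀ (fun _ x => g x) n
    have hs : ∀ n, s n < om := by
      intro n
      induction n with
      | zero => exact hα₀
      | succ n ih => exact (hg _ ih).1
    have hstep : ∀ n, s n < s (n + 1) := fun n => (hg _ (hs n)).2.1
    have hlt : ∀ n, s n < ⨆ n, s n := fun n =>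
      lt_of_lt_of_le (hstep n) (Ordinal.le_iSup s (n + 1))
    have hex : ∀ β < ⨆ n, s n, ∃ n, β < s n := by
      intro β hβ
      exact (Ordinal.lt_iSup_iff).1 hβ
    refine ⟨⨆ n, s n, ⟨Ordinal.iSup_lt_omega_one hs, ?_, ?_⟩, hlt 0⟩
    · apply isSuccLimit_of
      · intro h0
        have := hlt 0
        rw [h0] at this
        exact absurd this (not_lt.2 bot_le)
      · intro β hβ
        obtain ⟨n, hn⟩ := hex β hβ
        refine lt_of_le_of_lt ?_ (hlt n)
        rw [← Order.succ_eq_add_one]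
        exact Order.succ_le_of_lt hn
    · intro β hβ
      obtain ⟨n, hn⟩ := hex β hβ
      exact lt_of_lt_of_le ((hg _ (hs n)).2.2 β hn.le) (Ordinal.le_iSup s (n + 1))
  · intro δ hδ h0 hlim
    refine ⟨hδ, ?_, ?_⟩
    · apply isSuccLimit_of h0
      intro β hβ
      obtain ⟨γ, _, h1, h2⟩ := hlim β hβ
      refine lt_of_le_of_lt ?_ h2
      rw [← Order.succ_eq_add_one]
      exact Order.succ_le_of_lt h1
    · intro β hβ
      obtain ⟨γ, hγ, h1, h2⟩ := hlim β hβ
      exact lt_trans (hγ.2.2 β h1) h2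

/-- Diamond, with closure points of functions. -/
theorem diamond_closed (hD : Diamond) : ∃ S : Ordinal.{0} → Set Ordinal.{0},
    ∀ A : Set Ordinal.{0}, ∀ h : Ordinal.{0} → Ordinal.{0}, (∀ α < om, h α < om) →
      ∃ δ, δ < om ∧ Order.IsSuccLimit δ ∧ (∀ α < δ, h α < δ) ∧ ∀ i, i ∈ S δ ↔ i ∈ A ∧ i < δ := by
  obtain ⟨S, hS⟩ := hD
  refine ⟨S, fun A h hh => ?_⟩
  obtain ⟨δ, ⟨h1, h2, h3⟩, h4⟩ := hS (A ∩ Iio om) (fun α hα => hα.2) _ (isClub_closure h hh)
  refine ⟨δ, h1, h2, h3, fun i => ?_⟩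
  rw [← h4]
  constructor
  · exact fun hi => ⟨hi.1.1, hi.2⟩
  · exact fun hi => ⟨⟨hi.1, lt_trans hi.2 h1⟩, hi.2⟩

end Pool.MP_8dd142_lc.W
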