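import Pool.Agent.W_MP_8dd142_lc.Defs
import Pool.Agent.W_MP_8dd142_lc.Omega

/-!
# Unions of chains of systems and the recursion (MP_8dd142_lc)
-/

set_option autoImplicit false

namespace Pool.MP_8dd142_lc.W

open Node Set

namespace Sys

/-- Directed families of systems. -/
def Dir {ι : Type*} (s : ι → Sys) : Prop :=
  ∀ i j, ∃ k, (s i).Ext (s k) ∧ (s j).Ext (s k)

theorem Dir.mem_iff {ι : Type*} {s : ι → Sys} (h : Dir s) {i : ι} {b : Set ℕ} {ν : Node}
    (hb : b ∈ (s i).B) (hν : ν ∈ (s i).N) :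
    (∃ j, b ∈ (s j).B ∧ ν ∈ (s j).φ b) ↔ ν ∈ (s i).φ b := by
  constructor
  · rintro ⟨j, hbj, hνj⟩
    obtain ⟨k, h1, h2⟩ := h i j
    rw [← h1.φ b hb ν hν, h2.φ b hbj ν ((s j).φ_sub hbj hνj)]
    exact hνj
  · exact fun h => ⟨i, hb, h⟩

theorem Dir.common {ι : Type*} {s : ι → Sys} (h : Dir s) {b : Set ℕ} {ν : Node}
    (hb : ∃ i, b ∈ (s i).B) (hν : ∃ i, ν ∈ (s i).N) : ∃ i, b ∈ (s i).B ∧ ν ∈ (s i).N := by
  obtain ⟨i, hi⟩ := hb
  obtain ⟨j, hj⟩ := hν
  obtain ⟨k, h1, h2⟩ := h i j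
  exact ⟨k, h1.B hi, h2.N hj⟩

/-- The union of a directed family. -/
def union {ι : Type*} [Nonempty ι] (s : ι → Sys) (h : Dir s) : Sys where
  B := {b | ∃ i, b ∈ (s i).B}
  N := {ν | ∃ i, ν ∈ (s i).N}
  φ := fun b => {ν | ∃ i, b ∈ (s i).B ∧ ν ∈ (s i).φ b}
  univ_mem := ⟨Classical.arbitrary ι, (s _).univ_mem⟩
  compl_mem := by
    rintro b ⟨i, hi⟩
    exact ⟨i, (s i).compl_mem b hi⟩
  inter_mem := by
    rintro b ⟨i, hi⟩ c ⟨j, hj⟩
    obtain ⟨k, h1, h2⟩ := h i j
    exact ⟨k, (s k).inter_mem b (h1.B hi) c (h2.B hj)⟩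
  φ_univ := by
    ext ν
    constructor
    · rintro ⟨i, _, hi⟩
      exact ⟨i, by rw [← (s i).φ_univ]; exact hi⟩
    · rintro ⟨i, hi⟩
      exact ⟨i, (s i).univ_mem, by rw [(s i).φ_univ]; exact hi⟩
  φ_compl := by
    intro b hb
    ext ν
    constructor
    · rintro ⟨i, hbi, hνi⟩
      have hνN := (s i).φ_sub hbi hνi
      refine ⟨⟨i, hνN⟩, fun h' => ?_⟩
      have hbi' : b ∈ (s i).B := by
        have := (s i).compl_mem _ hbi
        rwa [compl_compl] at this
      have h'' := (h.mem_iff hbi' hνN).1 h'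
      exact ((s i).mem_φ_compl hbi' hνN).1 hνi h''
    · rintro ⟨hν, hnot⟩
      obtain ⟨k, hk1, hk2⟩ := h.common hb hν
      refine ⟨k, (s k).compl_mem b hk1, ?_⟩
      rw [(s k).mem_φ_compl hk1 hk2]
      intro h'
      exact hnot ((h.mem_iff hk1 hk2).2 h')
  φ_inter := by
    intro b hb c hc
    ext ν
    constructor
    · intro hν
      have hνN : ∃ i, ν ∈ (s i).N := by
        obtain ⟨i, hi1, hi2⟩ := hν
        exact ⟨i, (s i).φ_sub hi1 hi2⟩
      obtain ⟨i, hi1, hi2⟩ := h.common hb hνN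
      obtain ⟨j, hj⟩ := hc
      obtain ⟨k, h1, h2⟩ := h i j
      have hbk := h1.B hi1
      have hck := h2.B hj
      have hνk := h1.N hi2
      have h3 := (h.mem_iff ((s k).inter_mem b hbk c hck) hνk).1 hν
      rw [(s k).mem_φ_inter hbk hck] at h3
      exact ⟨⟨k, hbk, h3.1⟩, ⟨k, hck, h3.2⟩⟩
    · rintro ⟨⟨i, hi1, hi2⟩, ⟨j, hj1, hj2⟩⟩
      obtain ⟨k, h1, h2⟩ := h i j
      refine ⟨k, (s k).inter_mem b (h1.B hi1) c (h2.B hj1), ?_⟩
      rw [(s k).mem_φ_inter (h1.B hi1) (h2.B hj1)]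
      exact ⟨(h1.φ b hi1 ν ((s i).φ_sub hi1 hi2)).2 hi2,
        (h2.φ c hj1 ν ((s j).φ_sub hj1 hj2)).2 hj2⟩
  root_mem := ⟨Classical.arbitrary ι, (s _).root_mem⟩
  pt_mem := fun y => ⟨Classical.arbitrary ι, (s _).pt_mem y⟩
  inf := by
    rintro b _ ν ⟨i, hi1, hi2⟩
    exact (s i).inf b hi1 ν hi2
  cl := by
    rintro b _ ν ⟨i, hi1, hi2⟩ l hl ⟨μ, ⟨j, hj⟩, hlev⟩ hle
    obtain ⟨k, h1, h2⟩ := h i j
    refine ((s k).cl b (h1.B hi1) ν ((h1.φ b hi1 ν ((s i).φ_sub hi1 hi2)).2 hi2) l hl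
      ⟨μ, h2.N hj, hlev⟩ hle).mono ?_
    rintro κ ⟨h3, h4⟩
    exact ⟨⟨k, h1.B hi1, h3⟩, h4⟩

theorem ext_union {ι : Type*} [Nonempty ι] (s : ι → Sys) (h : Dir s) (i : ι) :
    (s i).Ext (union s h) where
  B := fun b hb => ⟨i, hb⟩
  N := fun ν hν => ⟨i, hν⟩
  φ := fun b hb ν hν => h.mem_iff hb hν
  fr := by
    rintro μ ⟨j, hj⟩ hl
    obtain ⟨k, h1, h2⟩ := h i j
    exact h1.fr μ (h2.N hj) hl

open Classical in
/-- The union if the family is directed and nonempty. -/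
noncomputable def union' {ι : Type*} (s : ι → Sys) (d : Sys) : Sys :=
  if h : Nonempty ι ∧ Dir s then @union ι h.1 s h.2 else d

/-- **Towers.** -/
theorem exists_tower (base : Sys) (step : Ordinal.{0} → Sys → Sys)
    (hstep : ∀ α, ∀ S : Sys, S.Ext (step α S)) (hc : ∀ α, ∀ S : Sys, S.Ctb → (step α S).Ctb) (hb : base.Ctb) :
    ∃ R : Ordinal.{0} → Sys, (∀ α, R (α + 1) = step α (R α)) ∧
      (∀ β, ∀ α ≤ β, (R α).Ext (R β)) ∧ (∀ α < om, (R α).Ctb) ∧
      (∀ δ, Order.IsSuccLimit δ → (∀ b ∈ (R δ).B, ∃ α < δ, b ∈ (R α).B) ∧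
        (∀ ν ∈ (R δ).N, ∃ α < δ, ν ∈ (R α).N)) := by
  let R : Ordinal.{0} → Sys := fun o => Ordinal.limitRecOn o base (fun α S => step α S)
    (fun o _ f => union' (fun x : Iio o => f x.1 x.2) base)
  have h0 : R 0 = base := Ordinal.limitRecOn_zero _ _ _
  have h1 : ∀ α, R (α + 1) = step α (R α) := fun α => Ordinal.limitRecOn_add_one _ _ _ _
  have h2 : ∀ o, Order.IsSuccLimit o → R o = union' (fun x : Iio o => R x.1) base :=
    fun o ho => Ordinal.limitRecOn_limit _ _ _ _ ho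
  have hne : ∀ o : Ordinal.{0}, Order.IsSuccLimit o → Nonempty (Iio o) :=
    fun o ho => ⟨⟨0, ho.bot_lt⟩⟩
  have hmono : ∀ β, ∀ α ≤ β, (R α).Ext (R β) := by
    intro β
    induction β using Ordinal.limitRecOn with
    | zero =>
      intro α hα
      have : α = 0 := le_antisymm hα bot_le
      subst this
      exact Ext.refl _
    | add_one β ih =>
      intro α hα
      rcases eq_or_lt_of_le hα with rfl | hlt
      · exact Ext.refl _
      · have : α ≤ β := by
          rw [← Order.succ_eq_add_one] at hlt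
          exact Order.lt_succ_iff.1 hlt
        rw [h1]
        exact (ih α this).trans (hstep β _)
    | limit β hβ ih =>
      intro α hα
      rcases eq_or_lt_of_le hα with rfl | hlt
      · exact Ext.refl _
      · have hdir : Dir (fun x : Iio β => R x.1) := by
          rintro ⟨i, hi⟩ ⟨j, hj⟩
          rcases le_total i j with hij | hij
          · exact ⟨⟨j, hj⟩, ih j hj i hij, Ext.refl _⟩
          · exact ⟨⟨i, hi⟩, Ext.refl _, ih i hi j hij⟩
        rw [h2 β hβ, union', dif_pos ⟨hne β hβ, hdir⟩]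
        exact @ext_union _ (hne β hβ) (fun x : Iio β => R x.1) hdir ⟨α, hlt⟩
  have hdir : ∀ β, Dir (fun x : Iio β => R x.1) := by
    rintro β ⟨i, hi⟩ ⟨j, hj⟩
    rcases le_total i j with hij | hij
    · exact ⟨⟨j, hj⟩, hmono j i hij, Ext.refl _⟩
    · exact ⟨⟨i, hi⟩, Ext.refl _, hmono i j hij⟩
  have hlimB : ∀ δ, Order.IsSuccLimit δ → (R δ).B = {b | ∃ x : Iio δ, b ∈ (R x.1).B} := by
    intro δ hδ
    rw [h2 δ hδ, union', dif_pos ⟨hne δ hδ, hdir δ⟩]
    rfl
  have hlimN : ∀ δ, Order.IsSuccLimit δ → (R δ).N = {b | ∃ x : Iio δ, b ∈ (R x.1).N} := by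
    intro δ hδ
    rw [h2 δ hδ, union', dif_pos ⟨hne δ hδ, hdir δ⟩]
    rfl
  refine ⟨R, h1, hmono, ?_, ?_⟩
  · intro α
    induction α using Ordinal.limitRecOn with
    | zero =>
      intro _
      rw [h0]
      exact hb
    | add_one α ih =>
      intro hα
      rw [h1]
      exact hc α _ (ih (lt_trans (lt_add_one α) hα))
    | limit α hα ih =>
      intro hlt
      have : Countable (Iio α) := (countable_Iio hlt).to_subtype
      refine ⟨?_, ?_⟩
      · rw [hlimB α hα, ofPred_exists]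
        exact countable_iUnion fun x => (ih x.1 x.2 (lt_trans x.2 hlt)).1
      · rw [hlimN α hα, ofPred_exists]
        exact countable_iUnion fun x => (ih x.1 x.2 (lt_trans x.2 hlt)).2
  · intro δ hδ
    refine ⟨?_, ?_⟩
    · intro b hb'
      rw [hlimB δ hδ] at hb'
      obtain ⟨x, hx⟩ := hb'
      exact ⟨x.1, x.2, hx⟩
    · intro b hb'
      rw [hlimN δ hδ] at hb'
      obtain ⟨x, hx⟩ := hb'
      exact ⟨x.1, x.2, hx⟩

/-- The base system. -/
def base : Sys where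
  B := {∅, univ}
  N := insert root (range pt)
  φ := fun b => {ν | ν ∈ insert root (range pt) ∧ b = univ}
  univ_mem := by simp
  compl_mem := by
    rintro b (rfl | hb)
    · simp
    · rw [mem_singleton_iff] at hb
      subst hb
      simp
  inter_mem := by
    rintro b (rfl | hb) c hc
    · simp
    · rw [mem_singleton_iff] at hb
      subst hb
      simpa using hc
  φ_univ := by
    ext ν
    simp
  φ_compl := by
    have hne : (univ : Set ℕ) ≠ ∅ := univ_nonempty.ne_empty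
    rintro b (rfl | hb)
    · ext ν
      simp [hne.symm]
    · rw [mem_singleton_iff] at hb
      subst hb
      rw [compl_univ]
      ext ν
      constructor
      · rintro ⟨_, h⟩
        exact absurd h.symm hne
      · rintro ⟨h1, h2⟩
        exact absurd ⟨h1, rfl⟩ h2
  φ_inter := by
    have hne : (univ : Set ℕ) ≠ ∅ := univ_nonempty.ne_empty
    rintro b (rfl | hb) c hc
    · ext ν
      simp [hne.symm]
    · rw [mem_singleton_iff] at hb
      subst hb
      ext ν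
      simp only [univ_inter, mem_ofPred_eq, mem_inter_iff, and_true]
      tauto
  root_mem := mem_insert _ _
  pt_mem := fun y => mem_insert_of_mem _ ⟨y, rfl⟩
  inf := by
    rintro b _ ν ⟨_, rfl⟩
    exact infinite_univ
  cl := by
    rintro b _ ν ⟨hν, rfl⟩ l hl ⟨μ, hμ, hlev⟩ hle
    have : l = ⊤ := by
      rcases hμ with rfl | ⟨y, rfl⟩
      · exact absurd hlev.symm hl
      · exact hlev.symm
    subst this
    have h1 : (range pt).Infinite := infinite_range_of_injective (fun a b h => by injection h)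
    refine h1.mono ?_
    rintro κ ⟨y, rfl⟩
    exact ⟨⟨mem_insert_of_mem _ ⟨y, rfl⟩, rfl⟩, rfl⟩

theorem base_ctb : base.Ctb := by
  refine ⟨?_, ?_⟩
  · exact (Set.countable_singleton _).insert _
  · exact (countable_range pt).insert _

end Sys

end Pool.MP_8dd142_lc.W
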