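import Mathlib

/-!
# Systems of ultrafilters on countable Boolean algebras (MP_8dd142_lc)

A *system* is a Boolean algebra `B` of subsets of `ℕ` together with a set `N` of nodes and a
Boolean homomorphism `φ : B → P(N)`; `ν ∈ φ b` means that `b` belongs to the ultrafilter `u_ν`.
-/

set_option autoImplicit false

namespace Pool.MP_8dd142_lc.W

/-- The nodes: a root, nodes `(l, z)` on level `l` (an ordinal), and points of `ℕ`. -/
inductive Node : Type 1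
  | root : Node
  | mid (l : Ordinal.{0}) (z : ℕ) : Node
  | pt (y : ℕ) : Node

noncomputable instance : DecidableEq Node := Classical.decEq _

/-- Levels: bottom for the root, ordinals, top for the points. -/
abbrev Lev : Type 1 := WithBot (WithTop Ordinal.{0})

/-- The level of a node. -/
def lev : Node → Lev
  | .root => ⊥
  | .mid l _ => ((l : WithTop Ordinal.{0}) : Lev)
  | .pt _ => ⊤

open Node

/-- A system. -/
structure Sys : Type 1 where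
  /-- the Boolean algebra -/
  B : Set (Set ℕ)
  /-- the nodes -/
  N : Set Node
  /-- `ν ∈ φ b` iff `b ∈ u_ν` -/
  φ : Set ℕ → Set Node
  univ_mem : Set.univ ∈ B
  compl_mem : ∀ b ∈ B, bᶜ ∈ B
  inter_mem : ∀ b ∈ B, ∀ c ∈ B, b ∩ c ∈ B
  φ_univ : φ Set.univ = N
  φ_compl : ∀ b ∈ B, φ bᶜ = N \ φ b
  φ_inter : ∀ b ∈ B, ∀ c ∈ B, φ (b ∩ c) = φ b ∩ φ c
  root_mem : root ∈ N
  pt_mem : ∀ y, pt y ∈ N
  inf : ∀ b ∈ B, ∀ ν ∈ φ b, b.Infinite
  cl : ∀ b ∈ B, ∀ ν ∈ φ b, ∀ l : Lev, l ≠ ⊥ → (∃ μ ∈ N, lev μ = l) → lev ν ≤ l →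
    {μ | μ ∈ φ b ∧ lev μ = l}.Infinite

namespace Sys

/-- Target levels: levels of nodes other than the root. -/
def T (S : Sys) : Set Lev := {l | l ≠ ⊥ ∧ ∃ μ ∈ S.N, lev μ = l}

/-- Both the algebra and the set of nodes are countable. -/
def Ctb (S : Sys) : Prop := S.B.Countable ∧ S.N.Countable

/-- Extension of systems. -/
structure Ext (S S' : Sys) : Prop where
  B : S.B ⊆ S'.B
  N : S.N ⊆ S'.N
  φ : ∀ b ∈ S.B, ∀ ν ∈ S.N, ν ∈ S'.φ b ↔ ν ∈ S.φ b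
  fr : ∀ μ ∈ S'.N, lev μ ∈ S.T → μ ∈ S.N

/-- The points in `φ X`. -/
def f (S : Sys) (X : Set ℕ) : Set ℕ := {y | pt y ∈ S.φ X}

/-- Points all of whose sets meet `Z` infinitely. -/
def E (S : Sys) (Z : Set ℕ) : Set ℕ := {y | ∀ b ∈ S.B, pt y ∈ S.φ b → (b ∩ Z).Infinite}

/-- Post-fixed sets of nodes. -/
def PF (S : Sys) (G : Set Node) : Prop :=
  G ⊆ S.N ∧ ∀ b ∈ S.B, ∀ ν ∈ G, ν ∈ S.φ b → ∀ l ∈ S.T, lev ν ≤ l →
    {μ | μ ∈ G ∧ μ ∈ S.φ b ∧ lev μ = l}.Infinite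

/-- The largest post-fixed set all of whose points lie in `C`. -/
def ker (S : Sys) (C : Set ℕ) : Set Node :=
  ⋃₀ {G | S.PF G ∧ ∀ y, pt y ∈ G → y ∈ C}

variable (S : Sys)

theorem φ_sub {b : Set ℕ} (hb : b ∈ S.B) : S.φ b ⊆ S.N := by
  have h := S.φ_compl _ (S.compl_mem b hb)
  rw [compl_compl] at h
  rw [h]
  exact Set.sdiff_subset

theorem empty_mem : ∅ ∈ S.B := by
  have := S.compl_mem _ S.univ_mem
  rwa [Set.compl_univ] at this

theorem φ_empty : S.φ ∅ = ∅ := by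
  have := S.φ_compl _ S.univ_mem
  rw [Set.compl_univ, S.φ_univ, Set.sdiff_self] at this
  exact this

theorem union_mem {b c : Set ℕ} (hb : b ∈ S.B) (hc : c ∈ S.B) : b ∪ c ∈ S.B := by
  have := S.compl_mem _ (S.inter_mem _ (S.compl_mem b hb) _ (S.compl_mem c hc))
  rwa [Set.compl_inter, compl_compl, compl_compl] at this

theorem mem_T {S : Sys} {l : Lev} (h1 : l ≠ ⊥) {μ : Node} (h2 : μ ∈ S.N) (h3 : lev μ = l) :
    l ∈ S.T := ⟨h1, μ, h2, h3⟩

theorem top_mem_T : (⊤ : Lev) ∈ S.T := ⟨by simp, pt 0, S.pt_mem 0, rfl⟩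

theorem clT {b : Set ℕ} (hb : b ∈ S.B) {ν : Node} (hν : ν ∈ S.φ b) {l : Lev} (hl : l ∈ S.T)
    (h : lev ν ≤ l) : {μ | μ ∈ S.φ b ∧ lev μ = l}.Infinite :=
  S.cl b hb ν hν l hl.1 hl.2 h

/-- Membership in the complement. -/
theorem mem_φ_compl {b : Set ℕ} (hb : b ∈ S.B) {ν : Node} (hν : ν ∈ S.N) :
    ν ∈ S.φ bᶜ ↔ ν ∉ S.φ b := by
  rw [S.φ_compl b hb]
  exact ⟨fun h => h.2, fun h => ⟨hν, h⟩⟩

theorem mem_φ_inter {b c : Set ℕ} (hb : b ∈ S.B) (hc : c ∈ S.B) {ν : Node} :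
    ν ∈ S.φ (b ∩ c) ↔ ν ∈ S.φ b ∧ ν ∈ S.φ c := by
  rw [S.φ_inter b hb c hc]
  rfl

theorem φ_mono {b c : Set ℕ} (hb : b ∈ S.B) (hc : c ∈ S.B) (h : b ⊆ c) : S.φ b ⊆ S.φ c := by
  intro ν hν
  have : b ∩ c = b := Set.inter_eq_left.2 h
  rw [← this, S.mem_φ_inter hb hc] at hν
  exact hν.2

theorem lev_pt (y : ℕ) : lev (pt y) = ⊤ := rfl

theorem lev_eq_top {ν : Node} (h : lev ν = ⊤) : ∃ y, ν = pt y := by
  cases ν with
  | root => exact absurd h (by simp [lev])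
  | mid l z =>
    exfalso
    have h' : ((l : WithTop Ordinal.{0}) : Lev) = ((⊤ : WithTop Ordinal.{0}) : Lev) := h
    rw [WithBot.coe_inj] at h'
    exact WithTop.coe_ne_top h'
  | pt y => exact ⟨y, rfl⟩

theorem lev_eq_bot {ν : Node} (h : lev ν = ⊥) : ν = root := by
  cases ν with
  | root => rfl
  | mid l z => exact absurd h (by simp [lev])
  | pt y => exact absurd h (by simp [lev])

theorem lev_eq_coe {ν : Node} {l : Ordinal.{0}} (h : lev ν = ((l : WithTop Ordinal.{0}) : Lev)) :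
    ∃ z, ν = mid l z := by
  cases ν with
  | root => exact absurd h (by simp [lev])
  | mid l' z =>
    refine ⟨z, ?_⟩
    have h' : ((l' : WithTop Ordinal.{0}) : Lev) = ((l : WithTop Ordinal.{0}) : Lev) := h
    rw [WithBot.coe_inj, WithTop.coe_inj] at h'
    rw [h']
  | pt y =>
    exfalso
    have h' : ((⊤ : WithTop Ordinal.{0}) : Lev) = ((l : WithTop Ordinal.{0}) : Lev) := h
    rw [WithBot.coe_inj] at h'
    exact WithTop.coe_ne_top h'.symm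

theorem lev_lt_top {ν : Node} (h : ∀ y, ν ≠ pt y) : lev ν < ⊤ := by
  rw [lt_top_iff_ne_top]
  intro h'
  obtain ⟨y, hy⟩ := lev_eq_top h'
  exact h y hy

theorem lev_le_top (ν : Node) : lev ν ≤ ⊤ := le_top

/-- There are infinitely many points in `φ b` as soon as `φ b` is nonempty. -/
theorem pts_infinite {b : Set ℕ} (hb : b ∈ S.B) {ν : Node} (hν : ν ∈ S.φ b) :
    (S.f b).Infinite := by
  have h := S.clT hb hν S.top_mem_T (lev_le_top ν)
  intro hfin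
  apply h
  refine (hfin.image pt).subset ?_
  rintro μ ⟨hμ, hl⟩
  obtain ⟨y, rfl⟩ := lev_eq_top hl
  exact ⟨y, hμ, rfl⟩

theorem Ext.refl (S : Sys) : S.Ext S :=
  ⟨subset_rfl, subset_rfl, fun _ _ _ _ => Iff.rfl, fun _ h _ => h⟩

theorem Ext.T_sub {S S' : Sys} (h : S.Ext S') : S.T ⊆ S'.T := by
  rintro l ⟨hl, μ, hμ, hlev⟩
  exact ⟨hl, μ, h.N hμ, hlev⟩

theorem Ext.trans {S S' S'' : Sys} (h : S.Ext S') (h' : S'.Ext S'') : S.Ext S'' where
  B := h.B.trans h'.B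
  N := h.N.trans h'.N
  φ := fun b hb ν hν => (h'.φ b (h.B hb) ν (h.N hν)).trans (h.φ b hb ν hν)
  fr := fun μ hμ hl => h.fr μ (h'.fr μ hμ (h.T_sub hl)) hl

/-- `f` does not change under extensions. -/
theorem Ext.f_eq {S S' : Sys} (h : S.Ext S') {b : Set ℕ} (hb : b ∈ S.B) : S'.f b = S.f b := by
  ext y
  exact h.φ b hb (pt y) (S.pt_mem y)

theorem Ext.root_iff {S S' : Sys} (h : S.Ext S') {b : Set ℕ} (hb : b ∈ S.B) :
    root ∈ S'.φ b ↔ root ∈ S.φ b := h.φ b hb root S.root_mem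

theorem f_mono {b c : Set ℕ} (hb : b ∈ S.B) (hc : c ∈ S.B) (h : b ⊆ c) : S.f b ⊆ S.f c :=
  fun _ hy => S.φ_mono hb hc h hy

/-- The image under the injection `pt` of an infinite set of naturals, and conversely. -/
theorem infinite_pt_iff {Q : Node → Prop} :
    {μ | Q μ ∧ lev μ = ⊤}.Infinite ↔ {y : ℕ | Q (pt y)}.Infinite := by
  constructor
  · intro h hfin
    apply h
    refine (hfin.image pt).subset ?_
    rintro μ ⟨hμ, hl⟩
    obtain ⟨y, rfl⟩ := lev_eq_top hl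
    exact ⟨y, hμ, rfl⟩
  · intro h hfin
    apply h
    refine Set.Finite.of_finite_image (f := pt) (hfin.subset ?_) (fun a _ b _ hab => by
      injection hab)
    rintro μ ⟨y, hy, rfl⟩
    exact ⟨hy, rfl⟩

end Sys

end Pool.MP_8dd142_lc.W
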