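import Pool.Agent.W_MP_8dd142_lc.NonTop

/-!
# The construction under diamond (MP_8dd142_lc)
-/

set_option autoImplicit false

namespace Pool.MP_8dd142_lc.W

open Node Set Sys

/-- The set of naturals coded by the `i`-th guess. -/
def Aen (S₀ : Ordinal.{0} → Set Ordinal.{0}) (i : Ordinal.{0}) : Set ℕ :=
  {n | (n : Ordinal.{0}) ∈ S₀ i}

/-- The family guessed at stage `i`. -/
def guess (S₀ : Ordinal.{0} → Set Ordinal.{0}) (i : Ordinal.{0}) : Set (Set ℕ) :=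
  Aen S₀ '' S₀ i

/-- The monotone map coded by a set of naturals. -/
def mapOf (A : Set ℕ) (X : Set ℕ) : Set ℕ :=
  {m | ∃ s : Finset ℕ, (s : Set ℕ) ⊆ X ∧ Encodable.encode (s, m) ∈ A}

theorem mapOf_mono (A : Set ℕ) (X Y : Set ℕ) (h : X ⊆ Y) : mapOf A X ⊆ mapOf A Y := by
  rintro m ⟨s, hs, hm⟩
  exact ⟨s, hs.trans h, hm⟩

/-- What is achieved at stage `i`; `Φ` is a prescribed family of monotone maps. -/
structure Good (Φ : Set ℕ → Set ℕ → Set ℕ) (S₀ : Ordinal.{0} → Set Ordinal.{0})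
    (i : Ordinal.{0}) (S S' : Sys) : Prop where
  dec : Aen S₀ i ∈ S'.B
  pts : ∃ X ∈ S'.B, root ∈ S'.φ X ∧ (S'.f X ⊆ Aen S₀ i ∨ S'.f X ⊆ (Aen S₀ i)ᶜ)
  kil : S'.Kills (mapOf (Aen S₀ i))
  kil' : S'.Kills (Φ (Aen S₀ i))
  non : (∃ S'' : Sys, S.Ext S'' ∧ S''.Ctb ∧ S''.Q (guess S₀ i)) → S'.Q (guess S₀ i)

theorem Q_mono {S S' : Sys} {𝒢 : Set (Set ℕ)} (h : S.Q 𝒢) (he : S.Ext S') : S'.Q 𝒢 := by
  obtain ⟨X, hX, hr, hinf⟩ := h
  exact ⟨X, he.B hX, (he.root_iff hX).2 hr, hinf⟩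

theorem exists_step (Φ : Set ℕ → Set ℕ → Set ℕ) (hΦ : ∀ A X Y, X ⊆ Y → Φ A X ⊆ Φ A Y)
    (S₀ : Ordinal.{0} → Set Ordinal.{0}) (i : Ordinal.{0}) (S : Sys) :
    ∃ S' : Sys, S.Ext S' ∧ (S.Ctb → S'.Ctb ∧ Good Φ S₀ i S S') := by
  by_cases hS : S.Ctb
  · -- non-maximality
    obtain ⟨S₁, h1, hc1, hn⟩ : ∃ S₁ : Sys, S.Ext S₁ ∧ S₁.Ctb ∧
        ((∃ S'' : Sys, S.Ext S'' ∧ S''.Ctb ∧ S''.Q (guess S₀ i)) → S₁.Q (guess S₀ i)) := by
      by_cases hex : ∃ S'' : Sys, S.Ext S'' ∧ S''.Ctb ∧ S''.Q (guess S₀ i)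
      · obtain ⟨S'', h1, h2, h3⟩ := hex
        exact ⟨S'', h1, h2, fun _ => h3⟩
      · exact ⟨S, Ext.refl S, hS, fun h => absurd h hex⟩
    obtain ⟨S₂, h2, hc2, hd⟩ := S₁.step_decide hc1 (Aen S₀ i)
    obtain ⟨S₃, h3, hc3, X, hX, hr, hp⟩ := S₂.step_points hc2 (Aen S₀ i)
    obtain ⟨S₅, h5, hc5, hk5⟩ := S₃.step_kill hc3 (Φ (Aen S₀ i)) (hΦ _)
    obtain ⟨S₄, h6, hc4, hk⟩ := S₅.step_kill hc5 (mapOf (Aen S₀ i)) (mapOf_mono _)
    have h4 := h5.trans h6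
    refine ⟨S₄, h1.trans (h2.trans (h3.trans h4)), fun _ => ⟨hc4, ⟨?_, ?_, hk, hk5.mono h6, ?_⟩⟩⟩
    · exact h4.B (h3.B hd)
    · refine ⟨X, h4.B hX, (h4.root_iff hX).2 hr, ?_⟩
      rw [h4.f_eq hX]
      exact hp
    · intro h
      exact Q_mono (hn h) (h2.trans (h3.trans h4))
  · exact ⟨S, Ext.refl S, fun h => absurd h hS⟩

/-- Finite sets of nodes inside a countable set. -/
theorem countable_finsets {N : Set Node} (hN : N.Countable) :
    {Γ : Finset Node | ∀ ν ∈ Γ, ν ∈ N}.Countable := by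
  classical
  have : Countable N := hN.to_subtype
  refine (countable_range (fun Γ : Finset N => Γ.map ⟨Subtype.val, Subtype.val_injective⟩)).mono ?_
  intro Γ hΓ
  refine ⟨Γ.subtype (· ∈ N), ?_⟩
  ext ν
  constructor
  · intro h
    obtain ⟨x, hx, rfl⟩ := Finset.mem_map.1 h
    exact Finset.mem_subtype.1 hx
  · intro h
    exact Finset.mem_map.2 ⟨⟨ν, hΓ ν h⟩, Finset.mem_subtype.2 h, rfl⟩

/-- **The construction.** Under diamond there is a full system with all required properties. -/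
theorem main (hD : Diamond) (Φ : Set ℕ → Set ℕ → Set ℕ)
    (hΦ : ∀ A X Y, X ⊆ Y → Φ A X ⊆ Φ A Y) : ∃ S : Sys, (∀ A : Set ℕ, A ∈ S.B) ∧
    (∀ C : Set ℕ, ∃ X, root ∈ S.φ X ∧ (S.f X ⊆ C ∨ S.f X ⊆ Cᶜ)) ∧
    (∀ A : Set ℕ, ∃ X, root ∈ S.φ X ∧ ((∀ Z, Z ⊆ X → ∀ y ∈ S.f X, y ∉ mapOf A Z) ∨
      (∀ Z, root ∈ S.φ Z → ¬ mapOf A Z ⊆ S.f X))) ∧
    (∀ A : Set ℕ, ∃ X, root ∈ S.φ X ∧ ((∀ Z, Z ⊆ X → ∀ y ∈ S.f X, y ∉ Φ A Z) ∨
      (∀ Z, root ∈ S.φ Z → ¬ Φ A Z ⊆ S.f X))) ∧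
    (∀ 𝒢 : Set (Set ℕ), ¬ 𝒢.Countable → (∀ A ∈ 𝒢, root ∈ S.φ A) → S.Q 𝒢) := by
  classical
  obtain ⟨S₀, hS₀⟩ := diamond_closed hD
  -- the enumeration of all sets of naturals
  have hen : ∀ A : Set ℕ, ∃ i < om, Aen S₀ i = A := by
    intro A
    obtain ⟨δ, h1, h2, h3, h4⟩ := hS₀ {α | ∃ n ∈ A, α = (n : Ordinal.{0})}
      (fun _ => Ordinal.omega0) (fun _ _ => Ordinal.omega0_lt_omega_one)
    have hδ : Ordinal.omega0 < δ := h3 0 h2.bot_lt
    refine ⟨δ, h1, ?_⟩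
    ext n
    constructor
    · intro hn
      obtain ⟨⟨m, hm, hnm⟩, _⟩ := (h4 _).1 hn
      have : n = m := Nat.cast_injective hnm
      rw [this]
      exact hm
    · intro hn
      exact (h4 _).2 ⟨⟨n, hn, rfl⟩, lt_trans (Ordinal.natCast_lt_omega0 n) hδ⟩
  choose step hstep using fun i : Ordinal.{0} => fun S : Sys => exists_step Φ hΦ S₀ i S
  obtain ⟨R, hR1, hmono, hctb, hlim⟩ := exists_tower base step (fun α S => (hstep α S).1)
    (fun α S hS => ((hstep α S).2 hS).1) base_ctb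
  have hgood : ∀ α < om, Good Φ S₀ α (R α) (R (α + 1)) := by
    intro α hα
    rw [hR1]
    exact ((hstep α (R α)).2 (hctb α hα)).2
  have hext : ∀ α < om, (R (α + 1)).Ext (R om) := fun α hα => hmono om (α + 1) (om_succ hα).le
  have hext' : ∀ α < om, (R α).Ext (R om) := fun α hα => hmono om α hα.le
  have hB : ∀ A : Set ℕ, A ∈ (R om).B := by
    intro A
    obtain ⟨i, hi, rfl⟩ := hen A
    exact (hext i hi).B (hgood i hi).dec
  refine ⟨R om, hB, ?_, ?_, ?_, ?_⟩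
  · intro C
    obtain ⟨i, hi, rfl⟩ := hen C
    obtain ⟨X, hX, hr, hp⟩ := (hgood i hi).pts
    refine ⟨X, ((hext i hi).root_iff hX).2 hr, ?_⟩
    rw [(hext i hi).f_eq hX]
    exact hp
  · intro A
    obtain ⟨i, hi, rfl⟩ := hen A
    obtain ⟨X, hX, hr, hp⟩ := (hgood i hi).kil _ (hext i hi)
    exact ⟨X, hr, hp.imp id (fun h Z hZ => h Z (hB Z) hZ)⟩
  · intro A
    obtain ⟨i, hi, rfl⟩ := hen A
    obtain ⟨X, hX, hr, hp⟩ := (hgood i hi).kil' _ (hext i hi)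
    exact ⟨X, hr, hp.imp id (fun h Z hZ => h Z (hB Z) hZ)⟩
  · intro 𝒢 h𝒢 hU
    -- the indices
    let I : Set Ordinal.{0} := {i | i < om ∧ Aen S₀ i ∈ 𝒢 ∧ ∀ j < i, Aen S₀ j ≠ Aen S₀ i}
    have hinj : InjOn (Aen S₀) I := by
      intro i hi j hj hij
      rcases lt_trichotomy i j with h | h | h
      · exact absurd hij (hj.2.2 i h)
      · exact h
      · exact absurd hij.symm (hi.2.2 j h)
    have hsurj : ∀ A ∈ 𝒢, ∃ i ∈ I, Aen S₀ i = A := by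
      intro A hA
      obtain ⟨i, hi, hiA⟩ := hen A
      have hne : {i | Aen S₀ i = A}.Nonempty := ⟨i, hiA⟩
      let i₀ := sInf {i | Aen S₀ i = A}
      have h1 : Aen S₀ i₀ = A := csInf_mem hne
      have h2 : i₀ ≤ i := csInf_le' hiA
      refine ⟨i₀, ⟨lt_of_le_of_lt h2 hi, by rw [h1]; exact hA, ?_⟩, h1⟩
      intro j hj hj'
      have : i₀ ≤ j := csInf_le' (by rw [mem_ofPred_eq, hj', h1])
      exact absurd this (not_le.2 hj)
    have hIc : ¬ I.Countable := by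
      intro h
      apply h𝒢
      refine (h.image (Aen S₀)).mono ?_
      intro A hA
      obtain ⟨i, hi, hiA⟩ := hsurj A hA
      exact ⟨i, hi, hiA⟩
    -- the bounds
    let L : Finset ℕ × Finset Node → Set Ordinal.{0} := fun p => Lset (R om) I (Aen S₀) p.1 p.2
    have hβ : ∀ p, ∃ β, β < om ∧ ((L p).Infinite → (L p ∩ Iio β).Infinite) := by
      intro p
      by_cases hp : (L p).Infinite
      · let e := Set.Infinite.natEmbedding (L p) hp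
        obtain ⟨β, hβ, hb⟩ := bdd_of_countable (C := range fun n => (e n).1)
          (countable_range _) (by
            rintro α ⟨n, rfl⟩
            exact (e n).2.1.1)
        refine ⟨β + 1, om_succ hβ, fun _ => ?_⟩
        have h1 : (range fun n => (e n).1).Infinite :=
          infinite_range_of_injective (fun a b h => e.injective (Subtype.ext h))
        refine h1.mono ?_
        rintro α ⟨n, rfl⟩
        exact ⟨(e n).2, lt_of_le_of_lt (hb _ ⟨n, rfl⟩) (lt_add_one β)⟩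
      · exact ⟨0, om_pos, fun h => absurd h hp⟩
    choose β hβ using hβ
    have hh : ∀ α : Ordinal.{0}, ∃ γ, γ < om ∧ (α < om → ∀ p : Finset ℕ × Finset Node,
        (∀ ν ∈ p.2, ν ∈ (R α).N) → β p ≤ γ) := by
      intro α
      by_cases hα : α < om
      · have hc : (β '' (univ ×ˢ {Γ : Finset Node | ∀ ν ∈ Γ, ν ∈ (R α).N})).Countable :=
          ((Set.to_countable _).prod (countable_finsets (hctb α hα).2)).image _
        obtain ⟨γ, hγ, hb⟩ := bdd_of_countable hc (by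
          rintro x ⟨p, _, rfl⟩
          exact (hβ p).1)
        exact ⟨γ, hγ, fun _ p hp => hb _ ⟨p, ⟨mem_univ _, hp⟩, rfl⟩⟩
      · exact ⟨0, om_pos, fun h => absurd h hα⟩
    choose h hh using hh
    obtain ⟨δ, hδ, hδlim, hδh, hδS⟩ := hS₀ I h (fun α _ => (hh α).1)
    have hguess : guess S₀ δ = Aen S₀ '' (I ∩ Iio δ) := by
      unfold guess
      congr 1
      ext i
      exact hδS i
    have h𝒢δ : guess S₀ δ ⊆ (R δ).B := by
      rw [hguess]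
      rintro A ⟨i, ⟨hi, hiδ⟩, rfl⟩
      refine (hmono δ (i + 1) ?_).B (hgood i hi.1).dec
      rw [← Order.succ_eq_add_one]
      exact Order.succ_le_of_lt hiδ
    -- finite sets of nodes appear before `δ`
    have hfin : ∀ Γ : Finset Node, (∀ ν ∈ Γ, ν ∈ (R δ).N) → ∃ α < δ, ∀ ν ∈ Γ, ν ∈ (R α).N := by
      intro Γ
      induction Γ using Finset.induction_on with
      | empty => exact fun _ => ⟨0, hδlim.bot_lt, by simp⟩
      | insert ν Γ _ ih =>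
        intro hΓ
        obtain ⟨α, hα, h1⟩ := ih (fun μ hμ => hΓ μ (Finset.mem_insert_of_mem hμ))
        obtain ⟨α', hα', h2⟩ := (hlim δ hδlim).2 ν (hΓ ν (Finset.mem_insert_self _ _))
        refine ⟨max α α', max_lt hα hα', ?_⟩
        intro μ hμ
        rcases Finset.mem_insert.1 hμ with rfl | hμ
        · exact (hmono _ α' (le_max_right _ _)).N h2
        · exact (hmono _ α (le_max_left _ _)).N (h1 μ hμ)
    have hex := nontop_ext (R om) (R δ) (hext' δ hδ) (hctb δ hδ) I (Aen S₀)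
      (fun i _ => hB _) (fun i hi => hU _ hi.2.1) hIc hinj (guess S₀ δ) h𝒢δ (by
        intro F Γ hΓ hunc
        obtain ⟨α, hα, hαΓ⟩ := hfin Γ hΓ
        have h1 : (L (F, Γ) ∩ Iio (β (F, Γ))).Infinite :=
          (hβ (F, Γ)).2 (fun hf => hunc hf.countable)
        have h2 : β (F, Γ) ≤ h α := (hh α).2 (lt_trans hα hδ) (F, Γ) hαΓ
        refine h1.mono ?_
        rintro i ⟨hi, hiβ⟩
        refine ⟨hi, ?_⟩
        rw [hguess]
        exact ⟨i, ⟨hi.1, lt_of_lt_of_le hiβ (h2.trans (hδh α hα).le)⟩, rfl⟩)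
    have hQ := Q_mono ((hgood δ hδ).non hex) (hext δ hδ)
    obtain ⟨X, hX, hr, hinf⟩ := hQ
    refine ⟨X, hX, hr, hinf.mono ?_⟩
    rintro A ⟨hA, hXA⟩
    rw [hguess] at hA
    obtain ⟨i, hi, rfl⟩ := hA
    exact ⟨hi.1.2.1, hXA⟩

/-- The ultrafilter of the root. -/
def rootFilter (S : Sys) (hB : ∀ A : Set ℕ, A ∈ S.B) : Filter ℕ where
  sets := {X | root ∈ S.φ X}
  univ_sets := by
    change root ∈ S.φ univ
    rw [S.φ_univ]
    exact S.root_mem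
  sets_of_superset := by
    intro X Y hX hXY
    exact S.φ_mono (hB X) (hB Y) hXY hX
  inter_sets := by
    intro X Y hX hY
    exact (S.mem_φ_inter (hB X) (hB Y)).2 ⟨hX, hY⟩

/-- The filter generated by the images. -/
def imageFilter (S : Sys) (hB : ∀ A : Set ℕ, A ∈ S.B) : Filter ℕ where
  sets := {D | ∃ X, root ∈ S.φ X ∧ S.f X ⊆ D}
  univ_sets := ⟨univ, by rw [S.φ_univ]; exact S.root_mem, subset_univ _⟩
  sets_of_superset := by
    rintro D D' ⟨X, hX, hD⟩ h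
    exact ⟨X, hX, hD.trans h⟩
  inter_sets := by
    rintro D D' ⟨X, hX, hD⟩ ⟨X', hX', hD'⟩
    refine ⟨X ∩ X', (S.mem_φ_inter (hB X) (hB X')).2 ⟨hX, hX'⟩, ?_⟩
    intro y hy
    have hy' : pt y ∈ S.φ (X ∩ X') := hy
    rw [S.mem_φ_inter (hB X) (hB X')] at hy'
    exact ⟨hD hy'.1, hD' hy'.2⟩

/-- **Diamond implies the negation.** -/
theorem diamond_not (hD : Diamond) (Φ : Set ℕ → Set ℕ → Set ℕ)
    (hΦ : ∀ A X Y, X ⊆ Y → Φ A X ⊆ Φ A Y) :
    ∃ U : Ultrafilter ℕ,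
      (¬ ∃ g : Finset (Set ℕ) → Set ℕ, (∀ s, g s ∈ U) ∧
          ∀ A : Set (Finset (Set ℕ)), (∃ Y ∈ U, ∀ s ∈ A, Y ⊆ g s) →
            ∃ t : Finset (Set ℕ), ∀ s ∈ A, s ⊆ t) ∧
      ∃ V : Ultrafilter ℕ, ∃ f : Set ℕ → Set ℕ,
        (∀ X ∈ U, f X ∈ V) ∧
        (∀ X ∈ U, ∀ Y ∈ U, Y ⊆ X → f Y ⊆ f X) ∧
        (∀ B : Set (Set ℕ), (∀ Y ∈ B, Y ∈ U) → (∀ X ∈ U, ∃ Y ∈ B, Y ⊆ X) →
            ∀ Z ∈ V, ∃ Y ∈ B, f Y ⊆ Z) ∧
        (∀ C : Set (Set ℕ), (∀ Y ∈ C, Y ∈ U) → (∀ X ∈ U, ∃ Y ∈ C, Y ⊆ X) →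
          ∀ F : Set ℕ → Set ℕ,
            ((∃ fh : Finset ℕ → Finset ℕ, (∀ s t : Finset ℕ, s ⊆ t → fh s ⊆ fh t) ∧
              ∀ X ∈ C, F X = {m : ℕ | ∃ k : ℕ, ∃ s : Finset ℕ,
                (s : Set ℕ) = X ∩ Set.Iio k ∧ m ∈ fh s}) ∨
              ∃ A : Set ℕ, ∀ X ∈ C, F X = Φ A X) →
            ¬ ((∀ X ∈ C, F X ∈ V) ∧ ∀ D ∈ V, ∃ X ∈ C, F X ⊆ D)) := by
  classical
  obtain ⟨S, hB, hpts, hkill, hkill', hnon⟩ := main hD Φ hΦ
  have hUc : ∀ X : Set ℕ, Xᶜ ∉ rootFilter S hB ↔ X ∈ rootFilter S hB := by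
    intro X
    change root ∉ S.φ Xᶜ ↔ root ∈ S.φ X
    rw [S.mem_φ_compl (hB X) S.root_mem, not_not]
  have hVc : ∀ D : Set ℕ, Dᶜ ∉ imageFilter S hB ↔ D ∈ imageFilter S hB := by
    intro D
    constructor
    · intro h
      obtain ⟨X, hX, hD | hD⟩ := hpts D
      · exact ⟨X, hX, hD⟩
      · exact absurd ⟨X, hX, hD⟩ h
    · rintro ⟨X, hX, hD⟩ ⟨X', hX', hD'⟩
      have h1 : root ∈ S.φ (X ∩ X') := (S.mem_φ_inter (hB X) (hB X')).2 ⟨hX, hX'⟩
      obtain ⟨y, hy⟩ := (S.pts_infinite (hB _) h1).nonempty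
      have hy' : pt y ∈ S.φ (X ∩ X') := hy
      rw [S.mem_φ_inter (hB X) (hB X')] at hy'
      exact hD' hy'.2 (hD hy'.1)
  let U : Ultrafilter ℕ := Ultrafilter.ofComplNotMemIff (rootFilter S hB) hUc
  let V : Ultrafilter ℕ := Ultrafilter.ofComplNotMemIff (imageFilter S hB) hVc
  have hU : ∀ X, X ∈ U ↔ root ∈ S.φ X := fun X => Iff.rfl
  have hV : ∀ D, D ∈ V ↔ ∃ X, root ∈ S.φ X ∧ S.f X ⊆ D := fun X => Iff.rfl
  refine ⟨U, ?_, V, S.f, ?_, ?_, ?_, ?_⟩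
  · -- not of maximum Tukey type
    rintro ⟨g, hgU, hg⟩
    let 𝒢 : Set (Set ℕ) := range fun ξ : Set ℕ => g {ξ}
    have hfib : ∀ Y : Set ℕ, root ∈ S.φ Y → {ξ : Set ℕ | Y ⊆ g {ξ}}.Finite := by
      intro Y hY
      obtain ⟨t, ht⟩ := hg {s | Y ⊆ g s} ⟨Y, hY, fun s hs => hs⟩
      refine t.finite_toSet.subset ?_
      intro ξ hξ
      have := ht {ξ} hξ
      exact this (Finset.mem_singleton_self ξ)
    have hunc : ¬ 𝒢.Countable := by
      intro hc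
      have h1 : (univ : Set (Set ℕ)).Countable := by
        refine (hc.biUnion (t := fun Y _ => {ξ : Set ℕ | g {ξ} = Y}) ?_).mono ?_
        · rintro Y ⟨ξ, rfl⟩
          refine ((hfib (g {ξ}) (hgU _)).subset ?_).countable
          intro ξ' hξ'
          have : g {ξ'} = g {ξ} := hξ'
          change g {ξ} ⊆ g {ξ'}
          rw [this]
        · intro ξ _
          exact mem_biUnion (x := g {ξ}) ⟨ξ, rfl⟩ rfl
      have h2 : Countable (Set ℕ) := countable_univ_iff.1 h1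
      obtain ⟨e, he⟩ := exists_injective_nat (Set ℕ)
      exact Function.cantor_injective e he
    obtain ⟨X, _, hr, hinf⟩ := hnon 𝒢 hunc (by
      rintro A ⟨ξ, rfl⟩
      exact hgU _)
    apply hinf
    refine ((hfib X hr).image fun ξ => g {ξ}).subset ?_
    rintro A ⟨⟨ξ, rfl⟩, hXA⟩
    exact ⟨ξ, hXA, rfl⟩
  · intro X hX
    exact ⟨X, hX, subset_rfl⟩
  · intro X _ Y _ h
    exact S.f_mono (hB Y) (hB X) h
  · rintro B hBU hbase Z ⟨X, hX, hXZ⟩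
    obtain ⟨Y, hY, hYX⟩ := hbase X hX
    exact ⟨Y, hY, (S.f_mono (hB Y) (hB X) hYX).trans hXZ⟩
  · intro C hCU hC F hF
    -- no killed map is a cofinal map into `V`
    have key : ∀ G : Set ℕ → Set ℕ, (∀ X ∈ C, F X = G X) →
        (∃ X, root ∈ S.φ X ∧ ((∀ Z, Z ⊆ X → ∀ y ∈ S.f X, y ∉ G Z) ∨
          (∀ Z, root ∈ S.φ Z → ¬ G Z ⊆ S.f X))) →
        ¬ ((∀ X ∈ C, F X ∈ V) ∧ ∀ D ∈ V, ∃ X ∈ C, F X ⊆ D) := by
      rintro G hFG ⟨X, hX, hG | hG⟩ ⟨h1, h2⟩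
      · obtain ⟨Y, hY, hYX⟩ := hC X hX
        have h3 : F Y ∈ V := h1 Y hY
        have h4 : S.f X ∈ V := ⟨X, hX, subset_rfl⟩
        have h5 : F Y ∩ S.f X ∈ V := Filter.inter_mem h3 h4
        have h6 : F Y ∩ S.f X = ∅ := by
          ext y
          constructor
          · rintro ⟨h7, h8⟩
            rw [hFG Y hY] at h7
            exact (hG Y hYX y h8 h7).elim
          · exact fun h => h.elim
        rw [h6] at h5
        exact V.empty_notMem h5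
      · obtain ⟨Y, hY, hYX⟩ := h2 (S.f X) ⟨X, hX, subset_rfl⟩
        rw [hFG Y hY] at hYX
        exact hG Y (hCU Y hY) hYX
    rcases hF with ⟨fh, hfh, heq⟩ | ⟨A, heq⟩
    · refine key (mapOf {n | ∃ s : Finset ℕ, ∃ m, m ∈ fh s ∧ n = Encodable.encode (s, m)}) ?_
        (hkill _)
      intro Y hY
      rw [heq Y hY]
      ext m
      constructor
      · rintro ⟨k, s, hs, hm⟩
        exact ⟨s, by rw [hs]; exact inter_subset_left, s, m, hm, rfl⟩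
      · rintro ⟨s, hs, s', m', hm', he⟩
        have h1 : (s, m) = (s', m') := Encodable.encode_injective he
        obtain ⟨rfl, rfl⟩ := Prod.mk.inj h1
        -- choose `k` above `s`
        have hfin : (Y ∩ Iio (s.sup id + 1)).Finite := (finite_Iio _).subset inter_subset_right
        refine ⟨s.sup id + 1, hfin.toFinset, by simp, ?_⟩
        refine hfh s _ ?_ hm'
        intro a ha
        rw [hfin.mem_toFinset]
        refine ⟨hs ha, ?_⟩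
        have : id a ≤ s.sup id := Finset.le_sup ha
        simp only [id] at this
        exact Nat.lt_succ_of_le this
    · exact key (Φ A) heq (hkill' A)

end Pool.MP_8dd142_lc.W
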