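import Pool.Agent.W_MP_8dd142_lc.Defs

/-!
# Largest post-fixed sets (MP_8dd142_lc)
-/

set_option autoImplicit false

namespace Pool.MP_8dd142_lc.W

open Node

namespace Sys

variable (S : Sys)

theorem ker_pf (C : Set ℕ) : S.PF (S.ker C) := by
  refine ⟨?_, ?_⟩
  · rintro ν ⟨G, ⟨hG, _⟩, hν⟩
    exact hG.1 hν
  · rintro b hb ν ⟨G, ⟨hG, hGC⟩, hν⟩ hbν l hl hle
    refine (hG.2 b hb ν hν hbν l hl hle).mono ?_
    rintro μ ⟨h1, h2, h3⟩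
    exact ⟨⟨G, ⟨hG, hGC⟩, h1⟩, h2, h3⟩

theorem ker_pt {C : Set ℕ} {y : ℕ} (h : pt y ∈ S.ker C) : y ∈ C := by
  obtain ⟨G, ⟨_, hGC⟩, hν⟩ := h
  exact hGC y hν

theorem sub_ker {C : Set ℕ} {G : Set Node} (hG : S.PF G) (hC : ∀ y, pt y ∈ G → y ∈ C) :
    G ⊆ S.ker C := fun _ hν => ⟨G, ⟨hG, hC⟩, hν⟩

/-- Infinitely many minus finitely many. -/
theorem inf_of_fin {P Q : Node → Prop} (h : {μ | P μ}.Infinite) (h' : ¬ {μ | P μ ∧ ¬ Q μ}.Infinite) :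
    {μ | P μ ∧ Q μ}.Infinite := by
  rw [Set.not_infinite] at h'
  refine (h.sdiff h').mono ?_
  rintro μ ⟨h1, h2⟩
  refine ⟨h1, ?_⟩
  by_contra h3
  exact h2 ⟨h1, h3⟩

/-- A post-fixed set together with a lower part is post-fixed. -/
theorem pf_union_low {G : Set Node} (hG : S.PF G) {b : Set ℕ} (hb : b ∈ S.B) {l : Lev}
    (hl : l ∈ S.T) (hfin : ¬ {μ | (μ ∈ S.φ b ∧ lev μ = l) ∧ ¬ μ ∈ G}.Infinite) :
    S.PF (G ∪ {μ | μ ∈ S.φ b ∧ lev μ < l}) := by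
  refine ⟨Set.union_subset hG.1 (fun μ hμ => S.φ_sub hb hμ.1), ?_⟩
  rintro b₂ hb₂ ν (hν | ⟨hνb, hνl⟩) hνb₂ l₂ hl₂ hle
  · refine (hG.2 b₂ hb₂ ν hν hνb₂ l₂ hl₂ hle).mono ?_
    rintro μ ⟨h1, h2, h3⟩
    exact ⟨Or.inl h1, h2, h3⟩
  · have hbb : b ∩ b₂ ∈ S.B := S.inter_mem b hb b₂ hb₂
    have hν' : ν ∈ S.φ (b ∩ b₂) := (S.mem_φ_inter hb hb₂).2 ⟨hνb, hνb₂⟩
    rcases lt_or_ge l₂ l with hlt | hge
    · refine (S.clT hbb hν' hl₂ hle).mono ?_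
      rintro μ ⟨h1, h3⟩
      rw [S.mem_φ_inter hb hb₂] at h1
      exact ⟨Or.inr ⟨h1.1, by rw [h3]; exact hlt⟩, h1.2, h3⟩
    · have h1 : {μ | (μ ∈ S.φ (b ∩ b₂) ∧ lev μ = l)}.Infinite := S.clT hbb hν' hl hνl.le
      have h2 : {μ | (μ ∈ S.φ (b ∩ b₂) ∧ lev μ = l) ∧ μ ∈ G}.Infinite := by
        apply inf_of_fin h1
        intro hinf
        apply hfin
        refine hinf.mono ?_
        rintro μ ⟨⟨h3, h4⟩, h5⟩
        rw [S.mem_φ_inter hb hb₂] at h3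
        exact ⟨⟨h3.1, h4⟩, h5⟩
      rcases eq_or_lt_of_le hge with heq | hlt
      · refine h2.mono ?_
        rintro μ ⟨⟨h3, h4⟩, h5⟩
        rw [S.mem_φ_inter hb hb₂] at h3
        exact ⟨Or.inl h5, h3.2, by rw [h4, heq]⟩
      · obtain ⟨μ, ⟨h3, h4⟩, h5⟩ := h2.nonempty
        rw [S.mem_φ_inter hb hb₂] at h3
        refine (hG.2 b₂ hb₂ μ h5 h3.2 l₂ hl₂ (by rw [h4]; exact hge)).mono ?_
        rintro κ ⟨h6, h7, h8⟩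
        exact ⟨Or.inl h6, h7, h8⟩

/-- Adding one node whose level neighbourhood is almost inside. -/
theorem pf_insert {G : Set Node} (hG : S.PF G) {b : Set ℕ} (hb : b ∈ S.B) {ν : Node}
    (hν : ν ∈ S.φ b) (hl : lev ν ∈ S.T)
    (hfin : ¬ {μ | (μ ∈ S.φ b ∧ lev μ = lev ν) ∧ ¬ μ ∈ G}.Infinite) :
    S.PF (G ∪ {ν}) := by
  refine ⟨Set.union_subset hG.1 (by rintro μ rfl; exact S.φ_sub hb hν), ?_⟩
  rintro b₂ hb₂ μ₀ (hμ₀ | hμ₀) hμ₀b₂ l₂ hl₂ hle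
  · refine (hG.2 b₂ hb₂ μ₀ hμ₀ hμ₀b₂ l₂ hl₂ hle).mono ?_
    rintro μ ⟨h1, h2, h3⟩
    exact ⟨Or.inl h1, h2, h3⟩
  · rw [Set.mem_singleton_iff] at hμ₀
    subst hμ₀
    have hbb : b ∩ b₂ ∈ S.B := S.inter_mem b hb b₂ hb₂
    have hν' : μ₀ ∈ S.φ (b ∩ b₂) := (S.mem_φ_inter hb hb₂).2 ⟨hν, hμ₀b₂⟩
    have h1 : {μ | (μ ∈ S.φ (b ∩ b₂) ∧ lev μ = lev μ₀)}.Infinite := S.clT hbb hν' hl le_rfl
    have h2 : {μ | (μ ∈ S.φ (b ∩ b₂) ∧ lev μ = lev μ₀) ∧ μ ∈ G}.Infinite := by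
      apply inf_of_fin h1
      intro hinf
      apply hfin
      refine hinf.mono ?_
      rintro μ ⟨⟨h3, h4⟩, h5⟩
      rw [S.mem_φ_inter hb hb₂] at h3
      exact ⟨⟨h3.1, h4⟩, h5⟩
    obtain ⟨μ, ⟨h3, h4⟩, h5⟩ := h2.nonempty
    rw [S.mem_φ_inter hb hb₂] at h3
    refine (hG.2 b₂ hb₂ μ h5 h3.2 l₂ hl₂ (by rw [h4]; exact hle)).mono ?_
    rintro κ ⟨h6, h7, h8⟩
    exact ⟨Or.inl h6, h7, h8⟩

/-- Outside of the largest post-fixed set, at non-points. -/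
theorem ker_compl {C : Set ℕ} {ν : Node} (hνp : lev ν ≠ ⊤) (hνG : ν ∉ S.ker C) {b : Set ℕ}
    (hb : b ∈ S.B) (hν : ν ∈ S.φ b) {l : Lev} (hl : l ∈ S.T) (hle : lev ν ≤ l) :
    {μ | (μ ∈ S.φ b ∧ μ ∉ S.ker C) ∧ lev μ = l}.Infinite := by
  by_contra hfin
  have hfin' : ¬ {μ | (μ ∈ S.φ b ∧ lev μ = l) ∧ ¬ μ ∈ S.ker C}.Infinite := by
    intro h
    apply hfin
    refine h.mono ?_
    rintro μ ⟨⟨h1, h2⟩, h3⟩
    exact ⟨⟨h1, h3⟩, h2⟩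
  rcases eq_or_lt_of_le hle with heq | hlt
  · -- same level
    subst heq
    have hpf := S.pf_insert (S.ker_pf C) hb hν hl hfin'
    apply hνG
    refine S.sub_ker hpf ?_ (Or.inr rfl)
    rintro y (hy | hy)
    · exact S.ker_pt hy
    · exfalso
      rw [Set.mem_singleton_iff] at hy
      rw [← hy] at hνp
      exact hνp rfl
  · have hpf := S.pf_union_low (S.ker_pf C) hb hl hfin'
    apply hνG
    refine S.sub_ker hpf ?_ (Or.inr ⟨hν, hlt⟩)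
    rintro y (hy | ⟨_, hy⟩)
    · exact S.ker_pt hy
    · exact absurd hy not_top_lt

/-- Outside of the largest post-fixed set, at points, for closed sets `C`. -/
theorem ker_compl_pt {C : Set ℕ}
    (hC : ∀ y, (∀ b ∈ S.B, pt y ∈ S.φ b → ∃ y' ∈ C, pt y' ∈ S.φ b) → y ∈ C)
    {y : ℕ} (hνG : pt y ∉ S.ker C) {b : Set ℕ}
    (hb : b ∈ S.B) (hν : pt y ∈ S.φ b) :
    {μ | (μ ∈ S.φ b ∧ μ ∉ S.ker C) ∧ lev μ = ⊤}.Infinite := by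
  by_contra hfin
  have hfin' : ¬ {μ | (μ ∈ S.φ b ∧ lev μ = lev (pt y)) ∧ ¬ μ ∈ S.ker C}.Infinite := by
    intro h
    apply hfin
    refine h.mono ?_
    rintro μ ⟨⟨h1, h2⟩, h3⟩
    exact ⟨⟨h1, h3⟩, h2⟩
  have hpf := S.pf_insert (S.ker_pf C) hb hν S.top_mem_T hfin'
  apply hνG
  refine S.sub_ker hpf ?_ (Or.inr rfl)
  rintro y' (hy | hy)
  · exact S.ker_pt hy
  · rw [Set.mem_singleton_iff] at hy
    injection hy with hy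
    subst hy
    apply hC
    intro b₂ hb₂ hy₂
    have hbb : b ∩ b₂ ∈ S.B := S.inter_mem b hb b₂ hb₂
    have hν' : pt y' ∈ S.φ (b ∩ b₂) := (S.mem_φ_inter hb hb₂).2 ⟨hν, hy₂⟩
    have h1 : {μ | (μ ∈ S.φ (b ∩ b₂) ∧ lev μ = ⊤)}.Infinite := S.clT hbb hν' S.top_mem_T le_rfl
    have h2 : {μ | (μ ∈ S.φ (b ∩ b₂) ∧ lev μ = ⊤) ∧ μ ∈ S.ker C}.Infinite := by
      apply inf_of_fin h1
      intro hinf
      apply hfin'
      refine hinf.mono ?_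
      rintro μ ⟨⟨h3, h4⟩, h5⟩
      rw [S.mem_φ_inter hb hb₂] at h3
      exact ⟨⟨h3.1, h4⟩, h5⟩
    obtain ⟨μ, ⟨h3, h4⟩, h5⟩ := h2.nonempty
    obtain ⟨y₁, rfl⟩ := lev_eq_top h4
    rw [S.mem_φ_inter hb hb₂] at h3
    exact ⟨y₁, S.ker_pt h5, h3.2⟩

/-- A set of points inside `φ b`. -/
theorem pf_pts {D : Set Node} (hD : ∀ μ ∈ D, lev μ = ⊤) (hDN : D ⊆ S.N)
    (h : ∀ b ∈ S.B, ∀ μ ∈ D, μ ∈ S.φ b → {κ | κ ∈ D ∧ κ ∈ S.φ b ∧ lev κ = ⊤}.Infinite) :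
    S.PF D := by
  refine ⟨hDN, ?_⟩
  intro b hb ν hν hνb l hl hle
  have : l = ⊤ := by
    rw [hD ν hν] at hle
    exact top_le_iff.1 hle
  subst this
  exact h b hb ν hν hνb

/-- **The ideal lemma.** -/
theorem ideal (C : Set ℕ) : root ∈ S.ker C ∨ root ∈ S.ker Cᶜ := by
  by_contra hcon
  rw [not_or] at hcon
  obtain ⟨hr1, hr2⟩ := hcon
  -- points of the kernel of the complement
  have key : ∀ b ∈ S.B, ∀ ν, lev ν ≠ ⊤ → ν ∉ S.ker C → ν ∈ S.φ b →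
      {μ | μ ∈ S.ker Cᶜ ∧ μ ∈ S.φ b ∧ lev μ = ⊤}.Infinite := by
    intro b hb ν hνp hνG hν
    -- it suffices to find one point
    suffices hne : ∃ y, pt y ∈ S.ker Cᶜ ∧ pt y ∈ S.φ b by
      obtain ⟨y, hy1, hy2⟩ := hne
      exact (S.ker_pf Cᶜ).2 b hb (pt y) hy1 hy2 ⊤ S.top_mem_T le_rfl
    by_contra hno
    push Not at hno
    -- then `C` meets every nonempty open subset infinitely
    have hdense : ∀ b₂ ∈ S.B, ∀ μ ∈ S.φ b, μ ∈ S.φ b₂ →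
        {κ | (κ ∈ S.φ (b ∩ b₂) ∧ lev κ = ⊤) ∧ ∃ y ∈ C, κ = pt y}.Infinite := by
      intro b₂ hb₂ μ hμb hμb₂
      have hbb : b ∩ b₂ ∈ S.B := S.inter_mem b hb b₂ hb₂
      have hμ' : μ ∈ S.φ (b ∩ b₂) := (S.mem_φ_inter hb hb₂).2 ⟨hμb, hμb₂⟩
      by_contra hfin
      -- the points of the complement form a post-fixed set
      let D : Set Node := {κ | (κ ∈ S.φ (b ∩ b₂) ∧ lev κ = ⊤) ∧ ¬ ∃ y ∈ C, κ = pt y}
      have hDinf : ∀ b₃ ∈ S.B, ∀ κ₀ ∈ S.φ (b ∩ b₂), κ₀ ∈ S.φ b₃ →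
          {κ | κ ∈ D ∧ κ ∈ S.φ b₃ ∧ lev κ = ⊤}.Infinite := by
        intro b₃ hb₃ κ₀ h1 h2
        have hbbb : (b ∩ b₂) ∩ b₃ ∈ S.B := S.inter_mem _ hbb b₃ hb₃
        have h3 : κ₀ ∈ S.φ ((b ∩ b₂) ∩ b₃) := (S.mem_φ_inter hbb hb₃).2 ⟨h1, h2⟩
        have h4 := S.clT hbbb h3 S.top_mem_T (lev_le_top κ₀)
        have h5 : {κ | (κ ∈ S.φ ((b ∩ b₂) ∩ b₃) ∧ lev κ = ⊤) ∧ ¬ ∃ y ∈ C, κ = pt y}.Infinite := by
          apply inf_of_fin h4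
          intro hinf
          apply hfin
          refine hinf.mono ?_
          rintro κ ⟨⟨h6, h7⟩, h8⟩
          rw [S.mem_φ_inter hbb hb₃] at h6
          exact ⟨⟨h6.1, h7⟩, not_not.1 h8⟩
        refine h5.mono ?_
        rintro κ ⟨⟨h6, h7⟩, h8⟩
        rw [S.mem_φ_inter hbb hb₃] at h6
        exact ⟨⟨⟨h6.1, h7⟩, h8⟩, h6.2, h7⟩
      have hDpf : S.PF D := by
        apply S.pf_pts (fun κ hκ => hκ.1.2) (fun κ hκ => S.φ_sub hbb hκ.1.1)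
        intro b₃ hb₃ κ hκ hκb₃
        exact hDinf b₃ hb₃ κ hκ.1.1 hκb₃
      obtain ⟨κ, hκ1, hκ2, hκ3⟩ := (hDinf b₂ hb₂ μ hμ' hμb₂).nonempty
      obtain ⟨y, rfl⟩ := lev_eq_top hκ3
      refine hno y ?_ ((S.mem_φ_inter hb hb₂).1 hκ1.1.1).1
      refine S.sub_ker hDpf ?_ hκ1
      rintro y' ⟨_, hy'⟩ hy''
      exact hy' ⟨y', hy'', rfl⟩
    -- hence everything in `φ b` outside `Cᶜ` is in the kernel of `C`
    have hpf : S.PF {μ | μ ∈ S.φ b ∧ ∀ y, μ = pt y → y ∈ C} := by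
      refine ⟨fun μ hμ => S.φ_sub hb hμ.1, ?_⟩
      rintro b₂ hb₂ μ ⟨hμ, _⟩ hμb₂ l hl hle
      have hbb : b ∩ b₂ ∈ S.B := S.inter_mem b hb b₂ hb₂
      have hμ' : μ ∈ S.φ (b ∩ b₂) := (S.mem_φ_inter hb hb₂).2 ⟨hμ, hμb₂⟩
      by_cases htop : l = ⊤
      · subst htop
        refine (hdense b₂ hb₂ μ hμ hμb₂).mono ?_
        rintro κ ⟨⟨h1, h2⟩, y, hy, rfl⟩
        rw [S.mem_φ_inter hb hb₂] at h1
        refine ⟨⟨h1.1, ?_⟩, h1.2, h2⟩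
        rintro y' hy'
        injection hy' with hy'
        rwa [← hy']
      · refine (S.clT hbb hμ' hl hle).mono ?_
        rintro κ ⟨h1, h2⟩
        rw [S.mem_φ_inter hb hb₂] at h1
        refine ⟨⟨h1.1, ?_⟩, h1.2, h2⟩
        rintro y rfl
        exact absurd h2.symm htop
    apply hνG
    refine S.sub_ker hpf (fun y hy => hy.2 y rfl) ⟨hν, ?_⟩
    rintro y rfl
    exact absurd rfl hνp
  -- the non-points outside of the kernel of `C` and the kernel of the complement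
  have hpf : S.PF ({ν | ν ∈ S.N ∧ lev ν ≠ ⊤ ∧ ν ∉ S.ker C} ∪ {μ | μ ∈ S.ker Cᶜ ∧ lev μ = ⊤}) := by
    refine ⟨Set.union_subset (fun ν hν => hν.1) (fun μ hμ => (S.ker_pf Cᶜ).1 hμ.1), ?_⟩
    rintro b hb ν (⟨hνN, hνp, hνG⟩ | ⟨hνG, hνt⟩) hνb l hl hle
    · by_cases htop : l = ⊤
      · subst htop
        refine (key b hb ν hνp hνG hνb).mono ?_
        rintro μ ⟨h1, h2, h3⟩
        exact ⟨Or.inr ⟨h1, h3⟩, h2, h3⟩
      · refine (S.ker_compl hνp hνG hb hνb hl hle).mono ?_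
        rintro μ ⟨⟨h1, h2⟩, h3⟩
        exact ⟨Or.inl ⟨S.φ_sub hb h1, by rw [h3]; exact htop, h2⟩, h1, h3⟩
    · have : l = ⊤ := by
        rw [hνt] at hle
        exact top_le_iff.1 hle
      subst this
      refine ((S.ker_pf Cᶜ).2 b hb ν hνG hνb ⊤ hl hle).mono ?_
      rintro μ ⟨h1, h2, h3⟩
      exact ⟨Or.inr ⟨h1, h3⟩, h2, h3⟩
  apply hr2
  refine S.sub_ker hpf ?_ (Or.inl ⟨S.root_mem, by simp [lev], hr1⟩)
  rintro y (⟨_, h, _⟩ | ⟨h, _⟩)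
  · exact absurd rfl h
  · exact S.ker_pt h

end Sys

end Pool.MP_8dd142_lc.W
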