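import Pool.Agent.W_MP_8dd142_lc.Add

/-!
# The fusion lemma (MP_8dd142_lc)
-/

set_option autoImplicit false

namespace Pool.MP_8dd142_lc.W

open Node

/-- Rasiowa–Sikorski, as an increasing sequence. -/
theorem generic_seq {P : Type*} [Preorder P] (p₀ : P) {ι : Type*} [Countable ι] (D : ι → Set P)
    (hD : ∀ i p, ∃ q, p ≤ q ∧ q ∈ D i) :
    ∃ s : ℕ → P, s 0 = p₀ ∧ Monotone s ∧ ∀ i, ∃ n, s n ∈ D i := by
  classical
  have : Encodable ι := Encodable.ofCountable ι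
  let 𝒟 : ι → Order.Cofinal P := fun i => ⟨D i, fun p => by
    obtain ⟨q, h1, h2⟩ := hD i p
    exact ⟨q, h2, h1⟩⟩
  refine ⟨Order.sequenceOfCofinals p₀ 𝒟, rfl, Order.sequenceOfCofinals.monotone p₀ 𝒟, ?_⟩
  intro i
  exact ⟨_, Order.sequenceOfCofinals.encode_mem p₀ 𝒟 i⟩

namespace Sys

variable (S : Sys)

/-- Finite intersections. -/
theorem fin_inter (T : Finset (Set ℕ)) (hT : ∀ A ∈ T, A ∈ S.B) :
    ∃ c ∈ S.B, (∀ A ∈ T, c ⊆ A) ∧ ∀ ν ∈ S.N, (∀ A ∈ T, ν ∈ S.φ A) → ν ∈ S.φ c := by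
  classical
  induction T using Finset.induction_on with
  | empty =>
    exact ⟨Set.univ, S.univ_mem, by simp, fun ν hν _ => by rw [S.φ_univ]; exact hν⟩
  | insert A T _ ih =>
    obtain ⟨c, hc, h1, h2⟩ := ih (fun A' hA' => hT A' (Finset.mem_insert_of_mem hA'))
    have hA := hT A (Finset.mem_insert_self A T)
    refine ⟨A ∩ c, S.inter_mem A hA c hc, ?_, ?_⟩
    · intro A' hA'
      rcases Finset.mem_insert.1 hA' with rfl | hA'
      · exact Set.inter_subset_left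
      · exact Set.inter_subset_right.trans (h1 A' hA')
    · intro ν hν h
      exact (S.mem_φ_inter hA hc).2 ⟨h A (Finset.mem_insert_self A T),
        h2 ν hν (fun A' hA' => h A' (Finset.mem_insert_of_mem hA'))⟩

/-- States of the fusion. -/
structure St (P : Set (Finset ℕ × Finset Node)) (𝒢 : Set (Set ℕ)) : Type 1 where
  F : Finset ℕ
  H : Finset ℕ
  Γ : Finset Node
  R : Finset Node
  T : Finset (Set ℕ)
  hFH : ∀ m ∈ F, m ∉ H
  hΓR : ∀ ν ∈ Γ, ν ∉ R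
  hP : (F, Γ) ∈ P
  hT : ∀ A ∈ T, A ∈ 𝒢 ∧ (∀ m ∈ F, m ∈ A) ∧ ∀ ν ∈ Γ, ν ∈ S.φ A

variable {P : Set (Finset ℕ × Finset Node)} {𝒢 : Set (Set ℕ)}

instance : Preorder (St S P 𝒢) where
  le p q := p.F ⊆ q.F ∧ p.H ⊆ q.H ∧ p.Γ ⊆ q.Γ ∧ p.R ⊆ q.R ∧ p.T ⊆ q.T
  le_refl p := ⟨subset_rfl, subset_rfl, subset_rfl, subset_rfl, subset_rfl⟩
  le_trans p q r h h' := ⟨h.1.trans h'.1, h.2.1.trans h'.2.1, h.2.2.1.trans h'.2.2.1,
    h.2.2.2.1.trans h'.2.2.2.1, h.2.2.2.2.trans h'.2.2.2.2⟩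

open Classical in
/-- Reserve a node for the complement. -/
noncomputable def St.addR (σ : St S P 𝒢) (ν : Node) (h : ν ∉ σ.Γ) : St S P 𝒢 :=
  { σ with
    R := insert ν σ.R
    hΓR := fun μ hμ hμ' => by
      rcases Finset.mem_insert.1 hμ' with rfl | hμ'
      · exact h hμ
      · exact σ.hΓR μ hμ hμ' }

theorem St.le_addR (σ : St S P 𝒢) (ν : Node) (h : ν ∉ σ.Γ) : σ ≤ σ.addR S ν h :=
  ⟨subset_rfl, subset_rfl, subset_rfl, Finset.subset_insert _ _, subset_rfl⟩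

theorem St.mem_addR (σ : St S P 𝒢) (ν : Node) (h : ν ∉ σ.Γ) : ν ∈ (σ.addR S ν h).R :=
  Finset.mem_insert_self _ _

open Classical in
/-- Reserve a number for the complement. -/
noncomputable def St.addH (σ : St S P 𝒢) (m : ℕ) (h : m ∉ σ.F) : St S P 𝒢 :=
  { σ with
    H := insert m σ.H
    hFH := fun m' hm hm' => by
      rcases Finset.mem_insert.1 hm' with rfl | hm'
      · exact h hm
      · exact σ.hFH m' hm hm' }

theorem St.le_addH (σ : St S P 𝒢) (m : ℕ) (h : m ∉ σ.F) : σ ≤ σ.addH S m h :=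
  ⟨subset_rfl, Finset.subset_insert _ _, subset_rfl, subset_rfl, subset_rfl⟩

theorem St.mem_addH (σ : St S P 𝒢) (m : ℕ) (h : m ∉ σ.F) : m ∈ (σ.addH S m h).H :=
  Finset.mem_insert_self _ _

open Classical in
/-- Add a number. -/
noncomputable def St.addF (σ : St S P 𝒢) (m : ℕ) (h : m ∉ σ.H) (hP : (insert m σ.F, σ.Γ) ∈ P)
    (hA : ∀ A ∈ σ.T, m ∈ A) : St S P 𝒢 :=
  { σ with
    F := insert m σ.F
    hFH := fun m' hm hm' => by
      rcases Finset.mem_insert.1 hm with rfl | hm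
      · exact h hm'
      · exact σ.hFH m' hm hm'
    hP := hP
    hT := fun A hAT => ⟨(σ.hT A hAT).1, fun m' hm' => by
      rcases Finset.mem_insert.1 hm' with rfl | hm'
      · exact hA A hAT
      · exact (σ.hT A hAT).2.1 m' hm', (σ.hT A hAT).2.2⟩ }

open Classical in
/-- Add a node. -/
noncomputable def St.addΓ (σ : St S P 𝒢) (ν : Node) (h : ν ∉ σ.R) (hP : (σ.F, insert ν σ.Γ) ∈ P)
    (hA : ∀ A ∈ σ.T, ν ∈ S.φ A) : St S P 𝒢 :=
  { σ with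
    Γ := insert ν σ.Γ
    hΓR := fun m' hm hm' => by
      rcases Finset.mem_insert.1 hm with rfl | hm
      · exact h hm'
      · exact σ.hΓR m' hm hm'
    hP := hP
    hT := fun A hAT => ⟨(σ.hT A hAT).1, (σ.hT A hAT).2.1, fun m' hm' => by
      rcases Finset.mem_insert.1 hm' with rfl | hm'
      · exact hA A hAT
      · exact (σ.hT A hAT).2.2 m' hm'⟩ }

open Classical in
/-- Add a set. -/
noncomputable def St.addT (σ : St S P 𝒢) (A : Set ℕ)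
    (hA : A ∈ 𝒢 ∧ (∀ m ∈ σ.F, m ∈ A) ∧ ∀ ν ∈ σ.Γ, ν ∈ S.φ A) : St S P 𝒢 :=
  { σ with
    T := insert A σ.T
    hT := fun A' hA' => by
      rcases Finset.mem_insert.1 hA' with rfl | hA'
      · exact hA
      · exact σ.hT A' hA' }

/-- An infinite set of naturals has a large element. -/
theorem exists_gt_of_infinite {b : Set ℕ} (hb : b.Infinite) (k : ℕ) (F : Finset ℕ) :
    ∃ m ∈ b, k < m ∧ m ∉ F := by
  obtain ⟨m, hm, hlt⟩ := hb.exists_gt (k + F.sup id)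
  refine ⟨m, hm, by omega, fun hF => ?_⟩
  have : id m ≤ F.sup id := Finset.le_sup hF
  simp only [id] at this
  omega

theorem infinite_of_gt {b : Set ℕ} (h : ∀ k, ∃ m ∈ b, k < m) : b.Infinite := by
  intro hfin
  obtain ⟨m, hm, hlt⟩ := h (hfin.toFinset.sup id)
  have : id m ≤ hfin.toFinset.sup id := Finset.le_sup (hfin.mem_toFinset.2 hm)
  simp only [id] at this
  omega

/-- **Fusion lemma.** -/
theorem fusion (hS : S.Ctb) (P : Set (Finset ℕ × Finset Node)) (𝒢 : Set (Set ℕ))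
    (h𝒢 : 𝒢 ⊆ S.B) (hP0 : (∅, {root}) ∈ P) (hPN : ∀ p ∈ P, ∀ ν ∈ p.2, ν ∈ S.N)
    (E1 : ∀ p ∈ P, ∀ ν ∈ p.2, ∀ b ∈ S.B, ν ∈ S.φ b → ∀ l ∈ S.T, lev ν ≤ l → ∀ R : Finset Node,
      ∃ μ, μ ∉ R ∧ lev μ = l ∧ μ ∈ S.φ b ∧ (p.1, insert μ p.2) ∈ P)
    (E2 : ∀ p ∈ P, ∀ y, pt y ∈ p.2 → ∀ b ∈ S.B, pt y ∈ S.φ b → ∀ k, ∃ m, k < m ∧ m ∈ b ∧
      (insert m p.1, p.2) ∈ P)
    (E3 : 𝒢.Nonempty → ∀ p ∈ P,
      {A | A ∈ 𝒢 ∧ (∀ m ∈ p.1, m ∈ A) ∧ ∀ ν ∈ p.2, ν ∈ S.φ A}.Infinite) :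
    ∃ S' : Sys, S.Ext S' ∧ S'.Ctb ∧ S'.N = S.N ∧ ∃ X ∈ S'.B, root ∈ S'.φ X ∧
      (∀ (F : Finset ℕ) (Γ : Finset Node), (∀ m ∈ F, m ∈ X) → (∀ ν ∈ Γ, ν ∈ S'.φ X) →
        ∃ p ∈ P, F ⊆ p.1 ∧ Γ ⊆ p.2) ∧
      (𝒢.Nonempty → {A | A ∈ 𝒢 ∧ X ⊆ A}.Infinite) := by
  classical
  obtain ⟨hSB, hSN⟩ := hS
  have : Countable S.B := hSB.to_subtype
  have : Countable S.N := hSN.to_subtype
  have hTc : S.T.Countable := by
    refine (hSN.image lev).mono ?_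
    rintro l ⟨_, μ, hμ, rfl⟩
    exact ⟨μ, hμ, rfl⟩
  have : Countable S.T := hTc.to_subtype
  let ι := S.B × S.N × S.T × ℕ × Finset S.N
  -- the requirements
  let D : ι × ℕ → Set (St S P 𝒢) := fun i =>
    match i with
    | ((_, ν, _, _, _), 0) => {σ | ν.1 ∈ σ.Γ ∨ ν.1 ∈ σ.R}
    | ((b, ν, _, k, _), 1) => {σ | ν.1 ∈ S.φ b → lev ν = ⊤ → ν.1 ∈ σ.R ∨ ∃ m ∈ σ.F, k < m ∧ m ∈ b.1}
    | ((b, _, _, k, _), 2) => {σ | b.1.Infinite → ∃ m ∈ σ.H, k < m ∧ m ∈ b.1}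
    | ((b, ν, l, _, R), 3) => {σ | ν.1 ∈ S.φ b → lev ν ≤ l → ν.1 ∈ σ.R ∨
        ∃ μ ∈ σ.Γ, (∀ κ ∈ R, κ.1 ≠ μ) ∧ μ ∈ S.φ b ∧ lev μ = l}
    | ((b, ν, l, _, R), 4) => {σ | ν.1 ∈ S.φ b → lev ν ≤ l →
        ∃ μ ∈ σ.R, (∀ κ ∈ R, κ.1 ≠ μ) ∧ μ ∈ S.φ b ∧ lev μ = l}
    | ((_, _, _, k, _), 5) => {σ | 𝒢.Nonempty → k ≤ σ.T.card}
    | _ => Set.univ
  have hD : ∀ i σ, ∃ τ, σ ≤ τ ∧ τ ∈ D i := by
    rintro ⟨⟨b, ν, l, k, R⟩, j⟩ σ
    rcases j with _ | _ | _ | _ | _ | _ | j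
    · -- decision
      by_cases h : ν.1 ∈ σ.Γ
      · exact ⟨σ, le_rfl, Or.inl h⟩
      · exact ⟨σ.addR S ν.1 h, σ.le_addR S ν.1 h, Or.inr (σ.mem_addR S ν.1 h)⟩
    · -- C2
      by_cases h : ν.1 ∈ σ.Γ
      · by_cases hb : ν.1 ∈ S.φ b ∧ lev ν = ⊤
        · obtain ⟨y, hy⟩ := lev_eq_top hb.2
          obtain ⟨c, hc, hc1, hc2⟩ := S.fin_inter σ.T (fun A hA => h𝒢 (σ.hT A hA).1)
          have hνc : ν.1 ∈ S.φ c := hc2 ν.1 ν.2 (fun A hA => (σ.hT A hA).2.2 ν.1 h)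
          have hbc : ν.1 ∈ S.φ (b.1 ∩ c) := (S.mem_φ_inter b.2 hc).2 ⟨hb.1, hνc⟩
          rw [hy] at hbc h
          obtain ⟨m, hm1, hm2, hm3⟩ := E2 _ σ.hP y h _ (S.inter_mem _ b.2 _ hc) hbc
            (k + σ.H.sup id)
          have hmH : m ∉ σ.H := by
            intro hmH
            have : id m ≤ σ.H.sup id := Finset.le_sup hmH
            simp only [id] at this
            omega
          refine ⟨σ.addF S m hmH hm3 (fun A hA => hc1 A hA hm2.2),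
            ⟨Finset.subset_insert _ _, subset_rfl, subset_rfl, subset_rfl, subset_rfl⟩, ?_⟩
          intro _ _
          exact Or.inr ⟨m, Finset.mem_insert_self _ _, by omega, hm2.1⟩
        · exact ⟨σ, le_rfl, fun h1 h2 => absurd ⟨h1, h2⟩ hb⟩
      · exact ⟨σ.addR S ν.1 h, σ.le_addR S ν.1 h, fun _ _ => Or.inl (σ.mem_addR S ν.1 h)⟩
    · -- C3
      by_cases hb : b.1.Infinite
      · obtain ⟨m, hm1, hm2, hm3⟩ := exists_gt_of_infinite hb k σ.F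
        exact ⟨σ.addH S m hm3, σ.le_addH S m hm3, fun _ => ⟨m, σ.mem_addH S m hm3, hm2, hm1⟩⟩
      · exact ⟨σ, le_rfl, fun h => absurd h hb⟩
    · -- C4
      by_cases h : ν.1 ∈ σ.Γ
      · by_cases hb : ν.1 ∈ S.φ b ∧ lev ν ≤ l
        · obtain ⟨c, hc, hc1, hc2⟩ := S.fin_inter σ.T (fun A hA => h𝒢 (σ.hT A hA).1)
          have hνc : ν.1 ∈ S.φ c := hc2 ν.1 ν.2 (fun A hA => (σ.hT A hA).2.2 ν.1 h)
          have hbc : ν.1 ∈ S.φ (b.1 ∩ c) := (S.mem_φ_inter b.2 hc).2 ⟨hb.1, hνc⟩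
          obtain ⟨μ, hμ1, hμ2, hμ3, hμ4⟩ := E1 _ σ.hP ν.1 h _ (S.inter_mem _ b.2 _ hc) hbc
            l.1 l.2 hb.2 (σ.R ∪ R.map ⟨Subtype.val, Subtype.val_injective⟩)
          rw [Finset.mem_union, not_or] at hμ1
          rw [S.mem_φ_inter b.2 hc] at hμ3
          refine ⟨σ.addΓ S μ hμ1.1 hμ4 (fun A hA =>
            S.φ_mono hc (h𝒢 (σ.hT A hA).1) (hc1 A hA) hμ3.2),
            ⟨subset_rfl, subset_rfl, Finset.subset_insert _ _, subset_rfl, subset_rfl⟩, ?_⟩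
          intro _ _
          refine Or.inr ⟨μ, Finset.mem_insert_self _ _, ?_, hμ3.1, hμ2⟩
          rintro κ hκ rfl
          exact hμ1.2 (Finset.mem_map.2 ⟨κ, hκ, rfl⟩)
        · exact ⟨σ, le_rfl, fun h1 h2 => absurd ⟨h1, h2⟩ hb⟩
      · exact ⟨σ.addR S ν.1 h, σ.le_addR S ν.1 h, fun _ _ => Or.inl (σ.mem_addR S ν.1 h)⟩
    · -- C5
      by_cases hb : ν.1 ∈ S.φ b ∧ lev ν ≤ l
      · obtain ⟨μ, ⟨hμ1, hμ2⟩, hμ3⟩ := (S.clT b.2 hb.1 l.2 hb.2).exists_notMem_finset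
          (σ.Γ ∪ R.map ⟨Subtype.val, Subtype.val_injective⟩)
        rw [Finset.mem_union, not_or] at hμ3
        refine ⟨σ.addR S μ hμ3.1, σ.le_addR S μ hμ3.1, fun _ _ =>
          ⟨μ, σ.mem_addR S μ hμ3.1, ?_, hμ1, hμ2⟩⟩
        rintro κ hκ rfl
        exact hμ3.2 (Finset.mem_map.2 ⟨κ, hκ, rfl⟩)
      · exact ⟨σ, le_rfl, fun h1 h2 => absurd ⟨h1, h2⟩ hb⟩
    · -- C6
      by_cases hne : 𝒢.Nonempty
      · have : ∀ k : ℕ, ∃ τ, σ ≤ τ ∧ k ≤ τ.T.card := by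
          intro k
          induction k with
          | zero => exact ⟨σ, le_rfl, Nat.zero_le _⟩
          | succ k ih =>
            obtain ⟨τ, h1, h2⟩ := ih
            obtain ⟨A, hA1, hA2⟩ := (E3 hne _ τ.hP).exists_notMem_finset τ.T
            refine ⟨τ.addT S A hA1, h1.trans
              ⟨subset_rfl, subset_rfl, subset_rfl, subset_rfl, Finset.subset_insert _ _⟩, ?_⟩
            change k + 1 ≤ (insert A τ.T).card
            rw [Finset.card_insert_of_notMem hA2]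
            omega
        obtain ⟨τ, h1, h2⟩ := this k
        exact ⟨τ, h1, fun _ => h2⟩
      · exact ⟨σ, le_rfl, fun h => absurd h hne⟩
    · exact ⟨σ, le_rfl, trivial⟩
  let σ₀ : St S P 𝒢 := ⟨∅, ∅, {root}, ∅, ∅, by simp, by simp, hP0, by simp⟩
  -- the sequence, starting from `σ₀`: work above `σ₀`
  obtain ⟨s, hs0, hs, hsD⟩ := generic_seq (P := St S P 𝒢) σ₀ D hD
  let X : Set ℕ := {m | ∃ n, m ∈ (s n).F}
  let A : Set Node := {ν | ∃ n, ν ∈ (s n).Γ}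
  have hXH : ∀ n, ∀ m ∈ (s n).H, m ∉ X := by
    rintro n m hm ⟨n', hm'⟩
    have h1 := (hs (le_max_left n n')).2.1 hm
    have h2 := (hs (le_max_right n n')).1 hm'
    exact (s (max n n')).hFH m h2 h1
  have hAR : ∀ n, ∀ ν ∈ (s n).R, ν ∉ A := by
    rintro n m hm ⟨n', hm'⟩
    have h1 := (hs (le_max_left n n')).2.2.2.1 hm
    have h2 := (hs (le_max_right n n')).2.2.1 hm'
    exact (s (max n n')).hΓR m h2 h1
  have hAN : A ⊆ S.N := by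
    rintro ν ⟨n, hn⟩
    exact hPN _ (s n).hP ν hn
  have i0 : S.B := ⟨Set.univ, S.univ_mem⟩
  have l0 : S.T := ⟨⊤, S.top_mem_T⟩
  -- a helper for infinite sets of nodes
  have hinfN : ∀ Q : Set Node, Q ⊆ S.N → (∀ R : Finset S.N, ∃ μ ∈ Q, ∀ κ ∈ R, κ.1 ≠ μ) →
      Q.Infinite := by
    intro Q hQ h hfin
    have hfin' : (Subtype.val ⁻¹' Q : Set S.N).Finite :=
      hfin.preimage Subtype.val_injective.injOn
    obtain ⟨μ, hμ, hne⟩ := h hfin'.toFinset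
    exact hne ⟨μ, hQ hμ⟩ (hfin'.mem_toFinset.2 hμ) rfl
  obtain ⟨S', h1, h2, h3, h4, h5⟩ := S.add_same ⟨hSB, hSN⟩ A hAN X (by
      -- ha
      intro b hb y hyA hyb
      apply infinite_of_gt
      intro k
      obtain ⟨n, hn⟩ := hsD ((⟨b, hb⟩, ⟨pt y, S.pt_mem y⟩, l0, k, ∅), 1)
      rcases hn hyb rfl with h | ⟨m, h1, h2, h3⟩
      · exact absurd hyA (hAR n _ h)
      · exact ⟨m, ⟨h3, n, h1⟩, h2⟩)
    (by
      -- hb
      intro b hb y _ hyb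
      apply infinite_of_gt
      intro k
      obtain ⟨n, hn⟩ := hsD ((⟨b, hb⟩, ⟨pt y, S.pt_mem y⟩, l0, k, ∅), 2)
      obtain ⟨m, h1, h2, h3⟩ := hn (S.inf b hb _ hyb)
      exact ⟨m, ⟨h3, hXH n m h1⟩, h2⟩)
    (by
      -- hc
      intro b hb ν hνb hνA l hl hle
      apply hinfN
      · rintro μ ⟨⟨h1, _⟩, _⟩
        exact S.φ_sub hb h1
      · intro R
        obtain ⟨n, hn⟩ := hsD ((⟨b, hb⟩, ⟨ν, S.φ_sub hb hνb⟩, ⟨l, hl⟩, 0, R), 3)
        rcases hn hνb hle with h | ⟨μ, h1, h2, h3, h4⟩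
        · exact absurd hνA (hAR n _ h)
        · exact ⟨μ, ⟨⟨h3, n, h1⟩, h4⟩, h2⟩)
    (by
      -- hd
      intro b hb ν hνb hνA l hl hle
      apply hinfN
      · rintro μ ⟨⟨h1, _⟩, _⟩
        exact S.φ_sub hb h1
      · intro R
        obtain ⟨n, hn⟩ := hsD ((⟨b, hb⟩, ⟨ν, S.φ_sub hb hνb⟩, ⟨l, hl⟩, 0, R), 4)
        obtain ⟨μ, h1, h2, h3, h4⟩ := hn hνb hle
        exact ⟨μ, ⟨⟨h3, hAR n μ h1⟩, h4⟩, h2⟩)
  refine ⟨S', h1, h2, h3, X, h4, ?_, ?_, ?_⟩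
  · -- the root
    rw [h5]
    refine ⟨0, ?_⟩
    rw [hs0]
    exact Finset.mem_singleton_self _
  · intro F Γ hF hΓ
    rw [h5] at hΓ
    have hF' : ∀ F : Finset ℕ, (∀ m ∈ F, m ∈ X) → ∃ n, F ⊆ (s n).F := by
      intro F
      induction F using Finset.induction_on with
      | empty => exact fun _ => ⟨0, by simp⟩
      | insert m F _ ih =>
        intro hF
        obtain ⟨n, hn⟩ := ih (fun m' hm' => hF m' (Finset.mem_insert_of_mem hm'))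
        obtain ⟨n', hn'⟩ := hF m (Finset.mem_insert_self _ _)
        refine ⟨max n n', Finset.insert_subset ((hs (le_max_right n n')).1 hn')
          (hn.trans (hs (le_max_left n n')).1)⟩
    have hΓ' : ∀ Γ : Finset Node, (∀ m ∈ Γ, m ∈ A) → ∃ n, Γ ⊆ (s n).Γ := by
      intro F
      induction F using Finset.induction_on with
      | empty => exact fun _ => ⟨0, by simp⟩
      | insert m F _ ih =>
        intro hF
        obtain ⟨n, hn⟩ := ih (fun m' hm' => hF m' (Finset.mem_insert_of_mem hm'))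
        obtain ⟨n', hn'⟩ := hF m (Finset.mem_insert_self _ _)
        refine ⟨max n n', Finset.insert_subset ((hs (le_max_right n n')).2.2.1 hn')
          (hn.trans (hs (le_max_left n n')).2.2.1)⟩
    obtain ⟨n, hn⟩ := hF' F hF
    obtain ⟨n', hn'⟩ := hΓ' Γ hΓ
    exact ⟨_, (s (max n n')).hP, hn.trans (hs (le_max_left n n')).1,
      hn'.trans (hs (le_max_right n n')).2.2.1⟩
  · intro hne hfin
    obtain ⟨n, hn⟩ := hsD ((i0, ⟨root, S.root_mem⟩, l0, hfin.toFinset.card + 1, ∅), 5)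
    have hn' := hn hne
    have hsub : (s n).T ⊆ hfin.toFinset := by
      intro G hG
      rw [hfin.mem_toFinset]
      refine ⟨((s n).hT G hG).1, ?_⟩
      rintro m ⟨n', hm⟩
      have h1 := (hs (le_max_left n n')).2.2.2.2 hG
      have h2 := (hs (le_max_right n n')).1 hm
      exact ((s (max n n')).hT G h1).2.1 m h2
    have := Finset.card_le_card hsub
    omega

end Sys

end Pool.MP_8dd142_lc.W
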