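import Pool.Agent.W_MP_8dd142_lc.Steps

/-!
# Killing a monotone map (MP_8dd142_lc)
-/

set_option autoImplicit false

namespace Pool.MP_8dd142_lc.W

open Node

/-- The level of a mid node. -/
abbrev olev (d : Ordinal.{0}) : Lev := ((d : WithTop Ordinal.{0}) : Lev)

theorem olev_ne_bot (d : Ordinal.{0}) : olev d ≠ ⊥ := by simp [olev]

theorem olev_ne_top (d : Ordinal.{0}) : olev d ≠ ⊤ := by
  intro h'
  have h : ((d : WithTop Ordinal.{0}) : Lev) = ((⊤ : WithTop Ordinal.{0}) : Lev) := h'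
  rw [WithBot.coe_inj] at h
  exact WithTop.coe_ne_top h

theorem olev_le {d e : Ordinal.{0}} : olev d ≤ olev e ↔ d ≤ e := by
  simp only [olev, WithBot.coe_le_coe, WithTop.coe_le_coe]

theorem olev_inj {d e : Ordinal.{0}} : olev d = olev e ↔ d = e := by
  simp only [olev, WithBot.coe_inj, WithTop.coe_inj]

/-- Every level is bottom, an ordinal, or top. -/
theorem lev_cases (l : Lev) : l = ⊥ ∨ (∃ d, l = olev d) ∨ l = ⊤ := by
  induction l using WithBot.recBotCoe with
  | bot => exact Or.inl rfl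
  | coe l =>
    right
    induction l using WithTop.recTopCoe with
    | top => exact Or.inr rfl
    | coe d => exact Or.inl ⟨d, rfl⟩

namespace Sys

variable (S : Sys)

/-- There is an ordinal above all levels of a countable system. -/
theorem exists_new_level (hS : S.Ctb) : ∃ d : Ordinal.{0}, ∀ l z, mid l z ∈ S.N → l < d := by
  have hc : {l : Ordinal.{0} | ∃ z, mid l z ∈ S.N}.Countable := by
    refine (hS.2.image (fun ν => match ν with
      | .mid l _ => l
      | _ => 0)).mono ?_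
    rintro l ⟨z, hz⟩
    exact ⟨mid l z, hz, rfl⟩
  have : Small.{0} ↥{l : Ordinal.{0} | ∃ z, mid l z ∈ S.N} := by
    have : Countable ↥{l : Ordinal.{0} | ∃ z, mid l z ∈ S.N} := hc.to_subtype
    infer_instance
  obtain ⟨d, hd⟩ := Ordinal.bddAbove_of_small (s := {l : Ordinal.{0} | ∃ z, mid l z ∈ S.N})
  exact ⟨Order.succ d, fun l z h => Order.lt_succ_of_le (hd ⟨z, h⟩)⟩

/-- The new level: description of the extension. -/
theorem new_level (hS : S.Ctb) (d : Ordinal.{0}) (hd : ∀ l z, mid l z ∈ S.N → l < d) :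
    ∃ (S' : Sys) (Z : Set ℕ) (X : Set ℕ), S.Ext S' ∧ S'.Ctb ∧ X ∈ S'.B ∧ root ∈ S'.φ X ∧
      Z.Nonempty ∧
      (∀ z ∈ Z, pt z ∉ S'.φ X) ∧
      (∀ z ∈ Z, mid d z ∈ S'.N) ∧
      (∀ z, mid d z ∈ S'.N → z ∈ Z) ∧
      (∀ b ∈ S.B, ∀ z ∈ Z, mid d z ∈ S'.φ b ↔ pt z ∈ S.φ b) := by
  classical
  -- the split of the points
  obtain ⟨Z, hZ⟩ := exists_split {D | ∃ b ∈ S.B, (S.f b).Nonempty ∧ D = S.f b}
    ((hS.1.image S.f).mono (by rintro D ⟨b, hb, _, rfl⟩; exact ⟨b, hb, rfl⟩))
    (by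
      rintro D ⟨b, hb, ⟨y, hy⟩, rfl⟩
      exact S.pts_infinite hb hy)
  have hZ' : ∀ b ∈ S.B, ∀ ν ∈ S.φ b, (S.f b ∩ Z).Infinite ∧ (S.f b ∩ Zᶜ).Infinite := by
    intro b hb ν hν
    exact hZ _ ⟨b, hb, (S.pts_infinite hb hν).nonempty, rfl⟩
  obtain ⟨X, hX⟩ := exists_split {D | D ∈ S.B ∧ D.Infinite} (hS.1.mono fun D h => h.1)
    (fun D h => h.2)
  -- the projection
  let π : Node → Node := fun ν => match ν with
    | .mid l z => if l = d then pt z else mid l z
    | .root => root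
    | .pt y => pt y
  have hπd : ∀ z, π (mid d z) = pt z := fun z => if_pos rfl
  let N' : Set Node := S.N ∪ {ν | ∃ z ∈ Z, ν = mid d z}
  have hπid : ∀ ν ∈ S.N, π ν = ν := by
    intro ν hν
    cases ν with
    | root => rfl
    | pt y => rfl
    | mid l z => exact if_neg (ne_of_lt (hd l z hν))
  have hπ : ∀ ν ∈ N', π ν ∈ S.N := by
    rintro ν (hν | ⟨z, _, rfl⟩)
    · rw [hπid ν hν]; exact hν
    · rw [hπd]; exact S.pt_mem z
  let A : Set Node := {ν | ¬ ∃ z ∈ Z, ν = pt z}
  have hAtop : ∀ ν, lev ν ≠ ⊤ → ν ∈ A := by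
    rintro ν hν ⟨z, _, rfl⟩
    exact hν rfl
  have hdisj : ∀ ν, (∃ z ∈ Z, ν = mid d z) → ν ∉ S.N := by
    rintro ν ⟨z, _, rfl⟩ h
    exact lt_irrefl _ (hd d z h)
  obtain ⟨S', h1, h2, h3, h4, h5, h6⟩ := S.add N' Set.subset_union_left π hπ hπid A X
    (by
      intro b hb ν hν hνA hbν
      exact (hX b ⟨hb, S.inf b hb _ hbν⟩).1)
    (by
      intro b hb ν hν hνA hbν
      exact (hX b ⟨hb, S.inf b hb _ hbν⟩).2)
    (by
      intro b hb ν hν hbν l hl1 hl2 hle
      rcases lev_cases l with rfl | ⟨e, rfl⟩ | rfl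
      · exact absurd rfl hl1
      · -- an ordinal level
        have hνA : ν ∈ A := by
          apply hAtop
          intro h
          rw [h] at hle
          exact olev_ne_top e (top_le_iff.1 hle)
        by_cases hed : e = d
        · subst hed
          have h7 : ((fun z => mid e z) '' (S.f b ∩ Z)).Infinite :=
            (hZ' b hb _ hbν).1.image (by
              intro a _ a' _ haa
              injection haa)
          refine h7.mono ?_
          rintro μ ⟨z, ⟨hz1, hz2⟩, rfl⟩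
          refine ⟨⟨Or.inr ⟨z, hz2, rfl⟩, ?_, ?_⟩, rfl⟩
          · change π (mid e z) ∈ S.φ b
            rw [hπd]
            exact hz1
          · exact iff_of_true (hAtop _ (olev_ne_top e)) hνA
        · -- an old level
          obtain ⟨μ₀, hμ₀, hlev₀⟩ := hl2
          obtain ⟨z₀, rfl⟩ := lev_eq_coe hlev₀
          have hμ₀N : mid e z₀ ∈ S.N := by
            rcases hμ₀ with h | ⟨z, _, h⟩
            · exact h
            · exfalso
              injection h with h
              exact hed h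
          have hνN : ν ∈ S.N := by
            rcases hν with h | ⟨z, _, h⟩
            · exact h
            · exfalso
              subst h
              have := olev_le.1 hle
              exact absurd (lt_of_le_of_lt this (hd e z₀ hμ₀N)) (lt_irrefl _)
          rw [hπid ν hνN] at hbν
          refine (S.cl b hb ν hbν (olev e) hl1 ⟨_, hμ₀N, hlev₀⟩ hle).mono ?_
          rintro μ ⟨h7, h8⟩
          have hμN := S.φ_sub hb h7
          refine ⟨⟨Or.inl hμN, by rw [hπid μ hμN]; exact h7, ?_⟩, h8⟩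
          exact iff_of_true (hAtop _ (by rw [h8]; exact olev_ne_top e)) hνA
      · -- the points
        by_cases hνA : ν ∈ A
        · have h7 : (pt '' (S.f b ∩ Zᶜ)).Infinite :=
            (hZ' b hb _ hbν).2.image (by
              intro a _ a' _ haa
              injection haa)
          refine h7.mono ?_
          rintro μ ⟨y, ⟨hy1, hy2⟩, rfl⟩
          refine ⟨⟨Or.inl (S.pt_mem y), hy1, ?_⟩, rfl⟩
          refine iff_of_true ?_ hνA
          rintro ⟨z, hz, hyz⟩
          injection hyz with hyz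
          exact hy2 (by rw [hyz]; exact hz)
        · have h7 : (pt '' (S.f b ∩ Z)).Infinite :=
            (hZ' b hb _ hbν).1.image (by
              intro a _ a' _ haa
              injection haa)
          refine h7.mono ?_
          rintro μ ⟨y, ⟨hy1, hy2⟩, rfl⟩
          refine ⟨⟨Or.inl (S.pt_mem y), hy1, ?_⟩, rfl⟩
          exact iff_of_false (fun h => h ⟨y, hy2, rfl⟩) hνA)
    (by
      rintro μ (h | ⟨z, _, rfl⟩) hl
      · exact h
      · exfalso
        obtain ⟨_, μ', hμ', hlev⟩ := hl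
        obtain ⟨z', rfl⟩ := lev_eq_coe hlev
        exact lt_irrefl _ (hd d z' hμ'))
  refine ⟨S', Z, X, h1, ⟨h6 hS.1, ?_⟩, h3, ?_, ?_, ?_, ?_, ?_, ?_⟩
  · rw [h2]
    refine hS.2.union ((Set.countable_range (fun z : ℕ => mid d z)).mono ?_)
    rintro ν ⟨z, _, rfl⟩
    exact ⟨z, rfl⟩
  · rw [h4]
    exact ⟨hAtop _ (by simp [lev]), Or.inl S.root_mem⟩
  · have := (hZ' Set.univ S.univ_mem root (by rw [S.φ_univ]; exact S.root_mem)).1.nonempty
    obtain ⟨z, hz⟩ := this
    exact ⟨z, hz.2⟩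
  · intro z hz h
    rw [h4] at h
    exact h.1 ⟨z, hz, rfl⟩
  · intro z hz
    rw [h2]
    exact Or.inr ⟨z, hz, rfl⟩
  · intro z hz
    rw [h2] at hz
    rcases hz with h | ⟨z', hz', h⟩
    · exact absurd (hd d z h) (lt_irrefl _)
    · injection h with _ h
      rw [h]
      exact hz'
  · intro b hb z hz
    rw [h5 b hb]
    constructor
    · rintro ⟨_, h⟩
      rw [hπd] at h
      exact h
    · intro h
      exact ⟨Or.inr ⟨z, hz, rfl⟩, by rw [hπd]; exact h⟩

/-- A system kills the map `F`: in every extension there is `X` in `U` such that either `F Z` is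
disjoint from `f X` for all small `Z`, or `F Z` is never contained in `f X`. -/
def Kills (S' : Sys) (F : Set ℕ → Set ℕ) : Prop :=
  ∀ S'' : Sys, S'.Ext S'' → ∃ X ∈ S''.B, root ∈ S''.φ X ∧
    ((∀ Z, Z ⊆ X → ∀ y ∈ S''.f X, y ∉ F Z) ∨
      (∀ Z ∈ S''.B, root ∈ S''.φ Z → ¬ F Z ⊆ S''.f X))

theorem Kills.mono {S' S'' : Sys} {F : Set ℕ → Set ℕ} (h : S'.Kills F) (he : S'.Ext S'') :
    S''.Kills F := fun S₃ h₃ => h S₃ (he.trans h₃)

/-- Step S3. -/
theorem step_kill (hS : S.Ctb) (F : Set ℕ → Set ℕ) (hF : ∀ X Y : Set ℕ, X ⊆ Y → F X ⊆ F Y) :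
    ∃ S' : Sys, S.Ext S' ∧ S'.Ctb ∧ S'.Kills F := by
  classical
  by_cases hcase : ∃ Z, root ∈ S.ker (S.E Z \ F Z)
  · -- Case 1
    obtain ⟨Z, hZ⟩ := hcase
    obtain ⟨S', h1, h2, X, hX, hXZ, hr, hsub⟩ := S.fusion_in hS (S.ker_pf _) hZ (Z := Z) (by
      intro b hb y hy hyb
      exact (S.ker_pt hy).1 b hb hyb)
    refine ⟨S', h1, h2, ?_⟩
    intro S'' he
    refine ⟨X, he.B hX, (he.root_iff hX).2 hr, Or.inl ?_⟩
    intro Z' hZX y hy1 hy
    rw [he.f_eq hX] at hy1
    have hy2 := S.ker_pt (hsub hy1)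
    apply hy2.2
    exact hF Z' Z (hZX.trans hXZ) hy
  · -- Case 2
    push Not at hcase
    obtain ⟨d, hd⟩ := S.exists_new_level hS
    obtain ⟨S', Z, X, h1, h2, hX, hr, hZne, hZX, hZN, hNZ, hπ⟩ := S.new_level hS d hd
    refine ⟨S', h1, h2, ?_⟩
    intro S'' he
    refine ⟨X, he.B hX, (he.root_iff hX).2 hr, Or.inr ?_⟩
    intro Z' hZ' hrZ' hsubX
    apply hcase Z'
    have he' := h1.trans he
    have hdT' : olev d ∈ S'.T := by
      obtain ⟨z, hz⟩ := hZne
      exact ⟨olev_ne_bot d, mid d z, hZN z hz, rfl⟩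
    have hdT : olev d ∈ S''.T := he.T_sub hdT'
    let G : Set Node := {ν | ν ∈ S.N ∧ lev ν ≠ ⊤ ∧ ν ∈ S''.φ Z'} ∪
      {ν | ∃ z ∈ Z, ν = pt z ∧ mid d z ∈ S''.φ Z'}
    -- transfer from the new level to the points
    have key : ∀ b ∈ S.B, ∀ ν, ν ∈ S''.φ (b ∩ Z') → lev ν ≤ olev d →
        {μ | μ ∈ G ∧ μ ∈ S.φ b ∧ lev μ = ⊤}.Infinite := by
      intro b hb ν hν hle
      have hb'' := he'.B hb
      have h3 := S''.clT (S''.inter_mem b hb'' Z' hZ') hν hdT hle
      have h4 : {z : ℕ | mid d z ∈ S''.φ (b ∩ Z')}.Infinite := by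
        intro hfin
        apply h3
        refine (hfin.image (fun z => mid d z)).subset ?_
        rintro μ ⟨h5, h6⟩
        obtain ⟨z, rfl⟩ := lev_eq_coe h6
        exact ⟨z, h5, rfl⟩
      have h5 : (pt '' {z : ℕ | mid d z ∈ S''.φ (b ∩ Z')}).Infinite := h4.image (by
        intro a _ a' _ haa
        injection haa)
      refine h5.mono ?_
      rintro μ ⟨z, hz, rfl⟩
      have hz' : mid d z ∈ S''.φ (b ∩ Z') := hz
      rw [S''.mem_φ_inter hb'' hZ'] at hz'
      have hzN : mid d z ∈ S'.N := he.fr _ (S''.φ_sub hb'' hz'.1) hdT'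
      have hzZ : z ∈ Z := hNZ z hzN
      refine ⟨Or.inr ⟨z, hzZ, rfl, hz'.2⟩, ?_, rfl⟩
      rw [← hπ b hb z hzZ, ← he.φ b (h1.B hb) _ hzN]
      exact hz'.1
    have hpf : S.PF G := by
      refine ⟨Set.union_subset (fun ν hν => hν.1) ?_, ?_⟩
      · rintro ν ⟨z, _, rfl, _⟩
        exact S.pt_mem z
      · rintro b hb ν (⟨hνN, hνp, hνZ⟩ | ⟨z, hz, rfl, hzZ'⟩) hνb l hl hle
        · have hb'' := he'.B hb
          have hνb'' : ν ∈ S''.φ (b ∩ Z') := by
            rw [S''.mem_φ_inter hb'' hZ']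
            exact ⟨(he'.φ b hb ν hνN).2 hνb, hνZ⟩
          by_cases htop : l = ⊤
          · subst htop
            apply key b hb ν hνb''
            rcases lev_cases (lev ν) with h | ⟨e, h⟩ | h
            · rw [h]; exact bot_le
            · obtain ⟨z, rfl⟩ := lev_eq_coe h
              exact olev_le.2 (hd _ _ hνN).le
            · exact absurd h hνp
          · refine (S''.clT (S''.inter_mem b hb'' Z' hZ') hνb'' (he'.T_sub hl) hle).mono ?_
            rintro μ ⟨h3, h4⟩
            rw [S''.mem_φ_inter hb'' hZ'] at h3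
            have hμN : μ ∈ S.N := he'.fr μ (S''.φ_sub hb'' h3.1) (by rw [h4]; exact hl)
            exact ⟨Or.inl ⟨hμN, by rw [h4]; exact htop, h3.2⟩,
              (he'.φ b hb μ hμN).1 h3.1, h4⟩
        · have hlt : l = ⊤ := top_le_iff.1 hle
          subst hlt
          have hb'' := he'.B hb
          apply key b hb (mid d z) ?_ le_rfl
          rw [S''.mem_φ_inter hb'' hZ']
          refine ⟨?_, hzZ'⟩
          rw [he.φ b (h1.B hb) _ (hZN z hz), hπ b hb z hz]
          exact hνb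
    refine S.sub_ker hpf ?_ (Or.inl ⟨S.root_mem, by simp [lev], hrZ'⟩)
    rintro y (⟨_, h, _⟩ | ⟨z, hz, hyz, hzZ'⟩)
    · exact absurd rfl h
    · injection hyz with hyz
      subst hyz
      refine ⟨?_, ?_⟩
      · intro b hb hyb
        have hb'' := he'.B hb
        apply S''.inf (b ∩ Z') (S''.inter_mem b hb'' Z' hZ') (mid d y)
        rw [S''.mem_φ_inter hb'' hZ']
        refine ⟨?_, hzZ'⟩
        rw [he.φ b (h1.B hb) _ (hZN y hz), hπ b hb y hz]
        exact hyb
      · intro hy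
        have hy1 : y ∈ S''.f X := hsubX hy
        rw [he.f_eq hX] at hy1
        exact hZX y hz hy1

end Sys

end Pool.MP_8dd142_lc.W
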