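import Pool.Agent.W_MP_8dd142_lc.Kill
import Pool.Agent.W_MP_8dd142_lc.Chain

/-!
# The step for non-maximality (MP_8dd142_lc)
-/

set_option autoImplicit false

namespace Pool.MP_8dd142_lc.W

open Node Set

namespace Sys

/-- Some member of `U` lies below infinitely many members of `𝒢`. -/
def Q (S : Sys) (𝒢 : Set (Set ℕ)) : Prop :=
  ∃ X ∈ S.B, root ∈ S.φ X ∧ {A | A ∈ 𝒢 ∧ X ⊆ A}.Infinite

/-- The indices `i ∈ I` such that `a i` contains `F` and belongs to `u_ν` for `ν ∈ Γ`. -/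
def Lset {ι : Type*} (S : Sys) (I : Set ι) (a : ι → Set ℕ) (F : Finset ℕ) (Γ : Finset Node) :
    Set ι := {i | i ∈ I ∧ (∀ m ∈ F, m ∈ a i) ∧ ∀ ν ∈ Γ, ν ∈ S.φ (a i)}

/-- The pigeonhole principle: an uncountable set covered by countably many sets. -/
theorem exists_uncountable {ι κ : Type*} {L : Set ι} (hL : ¬ L.Countable) {K : Set κ}
    (hK : K.Countable) (M : κ → Set ι) (h : ∀ i ∈ L, ∃ k ∈ K, i ∈ M k) :
    ∃ k ∈ K, ¬ (M k).Countable := by
  by_contra hcon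
  push Not at hcon
  apply hL
  refine (hK.biUnion hcon).mono ?_
  intro i hi
  obtain ⟨k, hk, hik⟩ := h i hi
  exact mem_biUnion hk hik

theorem nontop_ext {ι : Type*} (Sf S : Sys) (hext : S.Ext Sf) (hS : S.Ctb) (I : Set ι)
    (a : ι → Set ℕ) (haB : ∀ i ∈ I, a i ∈ Sf.B) (har : ∀ i ∈ I, root ∈ Sf.φ (a i))
    (hI : ¬ I.Countable) (hinj : InjOn a I) (𝒢 : Set (Set ℕ)) (h𝒢 : 𝒢 ⊆ S.B)
    (hrefl : ∀ (F : Finset ℕ) (Γ : Finset Node), (∀ ν ∈ Γ, ν ∈ S.N) →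
      ¬ (Lset Sf I a F Γ).Countable → {i | i ∈ Lset Sf I a F Γ ∧ a i ∈ 𝒢}.Infinite) :
    ∃ S' : Sys, S.Ext S' ∧ S'.Ctb ∧ S'.Q 𝒢 := by
  have hP0 : ¬ (Lset Sf I a ∅ {root}).Countable := by
    intro h
    apply hI
    refine h.mono ?_
    intro i hi
    refine ⟨hi, by simp, ?_⟩
    intro ν hν
    rw [Finset.mem_singleton] at hν
    subst hν
    exact har i hi
  have hNc : S.N.Countable := hS.2
  obtain ⟨S', h1, h2, _, X, hX, hr, _, hinf⟩ := S.fusion hS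
    {p | (∀ ν ∈ p.2, ν ∈ S.N) ∧ ¬ (Lset Sf I a p.1 p.2).Countable} 𝒢 h𝒢
    ⟨by simpa using S.root_mem, hP0⟩ (fun p hp => hp.1)
    (by
      -- E1
      rintro p ⟨hp1, hp2⟩ ν hν b hb hνb l hl hle R
      have hνN := hp1 ν hν
      obtain ⟨μ, ⟨hμN, hμR, hμl, hμb⟩, hunc⟩ := exists_uncountable hp2
        (K := {μ | μ ∈ S.N ∧ μ ∉ R ∧ lev μ = l ∧ μ ∈ S.φ b}) (hNc.mono fun μ h => h.1)
        (fun μ => {i | i ∈ Lset Sf I a p.1 p.2 ∧ μ ∈ Sf.φ (a i)}) (by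
          intro i hi
          have hbf := hext.B hb
          have hai := haB i hi.1
          have h3 : ν ∈ Sf.φ (b ∩ a i) := by
            rw [Sf.mem_φ_inter hbf hai]
            exact ⟨(hext.φ b hb ν hνN).2 hνb, hi.2.2 ν hν⟩
          obtain ⟨μ, ⟨h4, h5⟩, h6⟩ := (Sf.clT (Sf.inter_mem b hbf _ hai) h3
            (hext.T_sub hl) hle).exists_notMem_finset R
          rw [Sf.mem_φ_inter hbf hai] at h4
          have hμN : μ ∈ S.N := hext.fr μ (Sf.φ_sub hbf h4.1) (by rw [h5]; exact hl)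
          exact ⟨μ, ⟨hμN, h6, h5, (hext.φ b hb μ hμN).1 h4.1⟩, hi, h4.2⟩)
      refine ⟨μ, hμR, hμl, hμb, ?_, ?_⟩
      · intro κ hκ
        rcases Finset.mem_insert.1 hκ with rfl | hκ
        · exact hμN
        · exact hp1 κ hκ
      · intro hc
        apply hunc
        refine hc.mono ?_
        rintro i ⟨hi, hμi⟩
        refine ⟨hi.1, hi.2.1, ?_⟩
        intro κ hκ
        rcases Finset.mem_insert.1 hκ with rfl | hκ
        · exact hμi
        · exact hi.2.2 κ hκ)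
    (by
      -- E2
      rintro p ⟨hp1, hp2⟩ y hy b hb hyb k
      obtain ⟨m, ⟨hmk, hmb⟩, hunc⟩ := exists_uncountable hp2
        (K := {m : ℕ | k < m ∧ m ∈ b}) (Set.to_countable _)
        (fun m => {i | i ∈ Lset Sf I a p.1 p.2 ∧ m ∈ a i}) (by
          intro i hi
          have hbf := hext.B hb
          have hai := haB i hi.1
          have h3 : pt y ∈ Sf.φ (b ∩ a i) := by
            rw [Sf.mem_φ_inter hbf hai]
            exact ⟨(hext.φ b hb _ (S.pt_mem y)).2 hyb, hi.2.2 _ hy⟩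
          obtain ⟨m, hm1, hm2⟩ := (Sf.inf _ (Sf.inter_mem b hbf _ hai) _ h3).exists_gt k
          exact ⟨m, ⟨hm2, hm1.1⟩, hi, hm1.2⟩)
      refine ⟨m, hmk, hmb, hp1, ?_⟩
      intro hc
      apply hunc
      refine hc.mono ?_
      rintro i ⟨hi, hmi⟩
      refine ⟨hi.1, ?_, hi.2.2⟩
      intro κ hκ
      rcases Finset.mem_insert.1 hκ with rfl | hκ
      · exact hmi
      · exact hi.2.1 κ hκ)
    (by
      -- E3
      rintro _ p ⟨hp1, hp2⟩
      have h3 := hrefl p.1 p.2 hp1 hp2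
      have h4 : (a '' {i | i ∈ Lset Sf I a p.1 p.2 ∧ a i ∈ 𝒢}).Infinite :=
        h3.image (hinj.mono fun i hi => hi.1.1)
      refine h4.mono ?_
      rintro A ⟨i, ⟨hi, hi𝒢⟩, rfl⟩
      refine ⟨hi𝒢, hi.2.1, ?_⟩
      intro ν hν
      exact (hext.φ _ (h𝒢 hi𝒢) ν (hp1 ν hν)).1 (hi.2.2 ν hν))
  refine ⟨S', h1, h2, X, hX, hr, hinf ?_⟩
  obtain ⟨i, hi⟩ := (hrefl ∅ {root} (by simpa using S.root_mem) hP0).nonempty
  exact ⟨a i, hi.2⟩

end Sys

end Pool.MP_8dd142_lc.W
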