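import Pool.Agent.W_MP_8dd142_lc.Fusion
import Pool.Agent.W_MP_8dd142_lc.Fix

/-!
# One-step extensions (MP_8dd142_lc)
-/

set_option autoImplicit false

namespace Pool.MP_8dd142_lc.W

open Node

/-- Splitting countably many infinite sets at once. -/
theorem exists_split (𝒟 : Set (Set ℕ)) (hc : 𝒟.Countable) (hinf : ∀ d ∈ 𝒟, d.Infinite) :
    ∃ X : Set ℕ, ∀ d ∈ 𝒟, (d ∩ X).Infinite ∧ (d ∩ Xᶜ).Infinite := by
  have : Countable 𝒟 := hc.to_subtype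
  let P := {p : Finset ℕ × Finset ℕ // ∀ m ∈ p.1, m ∉ p.2}
  let D : 𝒟 × ℕ → Set P := fun i => {p | (∃ m ∈ p.1.1, i.2 < m ∧ m ∈ i.1.1) ∧
    (∃ m ∈ p.1.2, i.2 < m ∧ m ∈ i.1.1)}
  have hD : ∀ i (p : P), ∃ q, p ≤ q ∧ q ∈ D i := by
    rintro ⟨⟨d, hd⟩, k⟩ ⟨⟨F, H⟩, hFH⟩
    obtain ⟨m, hm1, hm2, hm3⟩ := Sys.exists_gt_of_infinite (hinf d hd) k (F ∪ H)
    obtain ⟨m', hm1', hm2', hm3'⟩ := Sys.exists_gt_of_infinite (hinf d hd) k (insert m F ∪ H)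
    rw [Finset.mem_union, not_or] at hm3 hm3'
    refine ⟨⟨(insert m F, insert m' H), ?_⟩, ?_, ?_⟩
    · intro a ha ha'
      rcases Finset.mem_insert.1 ha with h1 | h1
      · rcases Finset.mem_insert.1 ha' with h2 | h2
        · exact hm3'.1 (by rw [← h2, h1]; exact Finset.mem_insert_self _ _)
        · exact hm3.2 (by rw [← h1]; exact h2)
      · rcases Finset.mem_insert.1 ha' with h2 | h2
        · exact hm3'.1 (by rw [← h2]; exact Finset.mem_insert_of_mem h1)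
        · exact hFH a h1 h2
    · exact ⟨Finset.subset_insert _ _, Finset.subset_insert _ _⟩
    · exact ⟨⟨m, Finset.mem_insert_self _ _, hm2, hm1⟩, ⟨m', Finset.mem_insert_self _ _, hm2', hm1'⟩⟩
  obtain ⟨s, _, hs, hsD⟩ := generic_seq (P := P) ⟨(∅, ∅), by simp⟩ D hD
  refine ⟨{m | ∃ n, m ∈ (s n).1.1}, ?_⟩
  intro d hd
  constructor
  · apply Sys.infinite_of_gt
    intro k
    obtain ⟨n, ⟨m, h1, h2, h3⟩, _⟩ := hsD (⟨d, hd⟩, k)
    exact ⟨m, ⟨h3, n, h1⟩, h2⟩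
  · apply Sys.infinite_of_gt
    intro k
    obtain ⟨n, _, ⟨m, h1, h2, h3⟩⟩ := hsD (⟨d, hd⟩, k)
    refine ⟨m, ⟨h3, ?_⟩, h2⟩
    rintro ⟨n', hn'⟩
    have e1 := (hs (le_max_left n n')).2 h1
    have e2 := (hs (le_max_right n n')).1 hn'
    exact (s (max n n')).2 m e2 e1

namespace Sys

variable (S : Sys)

/-- Fusion inside a post-fixed set and a set of naturals. -/
theorem fusion_in (hS : S.Ctb) {G : Set Node} (hG : S.PF G) (hr : root ∈ G) {Z : Set ℕ}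
    (hZ : ∀ b ∈ S.B, ∀ y, pt y ∈ G → pt y ∈ S.φ b → (b ∩ Z).Infinite) :
    ∃ S' : Sys, S.Ext S' ∧ S'.Ctb ∧ ∃ X ∈ S'.B, X ⊆ Z ∧ root ∈ S'.φ X ∧ S'.φ X ⊆ G := by
  obtain ⟨S', h1, h2, _, X, hX, hrX, hfin, _⟩ := S.fusion hS
    {p | (∀ m ∈ p.1, m ∈ Z) ∧ ∀ ν ∈ p.2, ν ∈ G} ∅ (Set.empty_subset _)
    ⟨by simp, by simpa using hr⟩ (fun p hp ν hν => hG.1 (hp.2 ν hν))
    (by
      rintro p ⟨hp1, hp2⟩ ν hν b hb hνb l hl hle R
      obtain ⟨μ, ⟨h1, h2, h3⟩, h4⟩ := (hG.2 b hb ν (hp2 ν hν) hνb l hl hle).exists_notMem_finset R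
      refine ⟨μ, h4, h3, h2, hp1, ?_⟩
      intro κ hκ
      rcases Finset.mem_insert.1 hκ with rfl | hκ
      · exact h1
      · exact hp2 κ hκ)
    (by
      rintro p ⟨hp1, hp2⟩ y hy b hb hyb k
      obtain ⟨m, hm1, hm2, _⟩ := exists_gt_of_infinite (hZ b hb y (hp2 _ hy) hyb) k ∅
      refine ⟨m, hm2, hm1.1, ?_, hp2⟩
      intro a ha
      rcases Finset.mem_insert.1 ha with rfl | ha
      · exact hm1.2
      · exact hp1 a ha)
    (by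
      rintro ⟨x, hx⟩
      exact absurd hx (Set.notMem_empty _))
  refine ⟨S', h1, h2, X, hX, ?_, hrX, ?_⟩
  · intro m hm
    obtain ⟨p, hp, h3, _⟩ := hfin {m} ∅ (by simpa using hm) (by simp)
    exact hp.1 m (h3 (Finset.mem_singleton_self m))
  · intro ν hν
    obtain ⟨p, hp, _, h4⟩ := hfin ∅ {ν} (by simp) (by simpa using hν)
    exact hp.2 ν (h4 (Finset.mem_singleton_self ν))

/-- Step S1: decide a set. -/
theorem step_decide (hS : S.Ctb) (A : Set ℕ) : ∃ S' : Sys, S.Ext S' ∧ S'.Ctb ∧ A ∈ S'.B := by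
  obtain ⟨S', h1, h2, _, h3, _⟩ := S.add_same hS (S.ker (S.E A)) (S.ker_pf _).1 A
    (by
      intro b hb y hy hyb
      exact S.ker_pt hy b hb hyb)
    (by
      intro b hb y hy hyb hfin
      have hfin' : (b ∩ Aᶜ).Finite := hfin
      apply hy
      have hpf : S.PF {μ | μ ∈ S.φ b ∧ lev μ = ⊤} := by
        apply S.pf_pts (fun μ hμ => hμ.2) (fun μ hμ => S.φ_sub hb hμ.1)
        rintro b₂ hb₂ μ ⟨h1, h2⟩ h3
        refine (S.clT (S.inter_mem b hb b₂ hb₂) ((S.mem_φ_inter hb hb₂).2 ⟨h1, h3⟩)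
          S.top_mem_T (lev_le_top μ)).mono ?_
        rintro κ ⟨h4, h5⟩
        rw [S.mem_φ_inter hb hb₂] at h4
        exact ⟨⟨h4.1, h5⟩, h4.2, h5⟩
      refine S.sub_ker hpf ?_ ⟨hyb, rfl⟩
      rintro y' ⟨hy', _⟩ b₂ hb₂ hy₂
      have h4 : pt y' ∈ S.φ (b ∩ b₂) := (S.mem_φ_inter hb hb₂).2 ⟨hy', hy₂⟩
      have h5 := S.inf _ (S.inter_mem b hb b₂ hb₂) _ h4
      refine (h5.sdiff hfin').mono ?_
      rintro n ⟨⟨h6, h7⟩, h8⟩
      refine ⟨h7, ?_⟩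
      by_contra h9
      exact h8 ⟨h6, h9⟩)
    (by
      intro b hb ν hνb hν l hl hle
      refine ((S.ker_pf (S.E A)).2 b hb ν hν hνb l hl hle).mono ?_
      rintro μ ⟨h1, h2, h3⟩
      exact ⟨⟨h2, h1⟩, h3⟩)
    (by
      intro b hb ν hνb hν l hl hle
      by_cases hp : lev ν = ⊤
      · obtain ⟨y, rfl⟩ := lev_eq_top hp
        have : l = ⊤ := by
          rw [hp] at hle
          exact top_le_iff.1 hle
        subst this
        apply S.ker_compl_pt ?_ hν hb hνb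
        intro y' h b₂ hb₂ hy₂
        obtain ⟨y₃, h3, h4⟩ := h b₂ hb₂ hy₂
        exact h3 b₂ hb₂ h4
      · exact S.ker_compl hp hν hb hνb hl hle)
  exact ⟨S', h1, h2, h3⟩

/-- Step S2: decide a set of points. -/
theorem step_points (hS : S.Ctb) (C : Set ℕ) : ∃ S' : Sys, S.Ext S' ∧ S'.Ctb ∧
    ∃ X ∈ S'.B, root ∈ S'.φ X ∧ (S'.f X ⊆ C ∨ S'.f X ⊆ Cᶜ) := by
  have hZ : ∀ G : Set Node, ∀ b ∈ S.B, ∀ y, pt y ∈ G → pt y ∈ S.φ b →
      (b ∩ Set.univ).Infinite := by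
    intro G b hb y _ hyb
    rw [Set.inter_univ]
    exact S.inf b hb _ hyb
  rcases S.ideal C with h | h
  · obtain ⟨S', h1, h2, X, hX, _, hr, hsub⟩ := S.fusion_in hS (S.ker_pf C) h (hZ _)
    exact ⟨S', h1, h2, X, hX, hr, Or.inl fun y hy => S.ker_pt (hsub hy)⟩
  · obtain ⟨S', h1, h2, X, hX, _, hr, hsub⟩ := S.fusion_in hS (S.ker_pf Cᶜ) h (hZ _)
    exact ⟨S', h1, h2, X, hX, hr, Or.inr fun y hy => S.ker_pt (hsub hy)⟩

end Sys

end Pool.MP_8dd142_lc.W
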